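import Pool.Agent.Q59.PL.Core

/-!
# Odd degrees
-/

namespace Pool.Agent.Q59.PL

open Finset Pool.Agent.H916R2 Pool.Agent.Q59.FS Pool.Agent.Y2.Cv
open Pool.Agent.Q59.SX (exists_smooth Sm)

lemma wq_iota {m M k : ℕ} [NeZero m] [NeZero M] (h : k * M = m) (q : ℕ) (s : Multiset (ZMod M)) :
    wq q (s.map (iota k : ZMod M → ZMod m)) = wq q s := by
  unfold wq
  rw [Multiset.map_map]
  congr 1
  refine Multiset.map_congr rfl fun b _ => ?_
  simp only [Function.comp_apply]
  rw [addOrderOf_iota h]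

/-- **Odd degrees.** -/
theorem main_odd {m m1 m2 : ℕ} (hm : m % 2 = 1) (h12 : m1 * m2 = m) (hgood : GoodDegree2 m1)
    {s : Multiset (ZMod m)} (hs : IsHodge m s) (hne : s ≠ 0)
    (hbig : ∀ q : ℕ, q.Prime → q ∣ m2 → Cond m q (wq q s)) :
    Generated (2 * m) (SurfaceOrCurveProduct (2 * m))
      (s.map fun a => ((2 * a.val : ℕ) : ZMod (2 * m))) := by
  have hm0 : m ≠ 0 := by rintro rfl; simp at hm
  have : NeZero m := ⟨hm0⟩
  have : NeZero (2 * m) := ⟨by omega⟩
  have hodd1 : ¬ 2 ∣ m1 := by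
    intro h
    have h1 : 2 ∣ m := by rw [← h12]; exact Dvd.dvd.mul_right h m2
    omega
  refine main_even (m := 2 * m) (m1 := 2 * m1) (m2 := m2) (by rw [← h12]; ring)
    (dvd_mul_right 2 m1) (hgood.two_mul hodd1) (IsHodge.iota (k := 2) rfl hs) ?_ ?_
  · intro h
    exact hne (Multiset.map_eq_zero.mp h)
  · intro q hq hqm
    have h1 : wq q (s.map fun a => ((2 * a.val : ℕ) : ZMod (2 * m))) = wq q s :=
      wq_iota (m := 2 * m) (k := 2) rfl q s
    rw [h1]
    obtain ⟨h5, h6⟩ := hbig q hq hqm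
    refine ⟨h5, h6.imp_right ?_⟩
    rintro ⟨-, h8, h9⟩
    refine ⟨by omega, h8, h9.imp_left fun h3 h => ?_⟩
    rcases Nat.prime_three.dvd_mul.mp h with h' | h'
    · exact absurd h' (by norm_num)
    · exact h3 h'

lemma wq_le {m : ℕ} (hm : m % 2 = 1) (q : ℕ) (s : Multiset (ZMod m)) :
    wq q s ≤ Multiset.card s := by
  have hm0 : m ≠ 0 := by rintro rfl; simp at hm
  have : NeZero m := ⟨hm0⟩
  unfold wq
  induction s using Multiset.induction_on with
  | empty => simp
  | cons a s ih =>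
    rw [Multiset.map_cons, Multiset.sum_cons, Multiset.card_cons]
    have h1 : (if q ∣ addOrderOf a then wo (addOrderOf a) else 0) ≤ 1 := by
      split_ifs
      · unfold wo
        rw [if_neg]
        intro h4
        have h2 : addOrderOf a ∣ m := by
          have := addOrderOf_dvd_card (x := a)
          rwa [ZMod.card] at this
        have h3 : 2 ∣ m := (show 2 ∣ addOrderOf a by omega).trans h2
        omega
      · norm_num
    push_cast
    linarith

/-- at most eight entries -/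
theorem main_eight' {m : ℕ} (hm : m % 2 = 1) {s : Multiset (ZMod m)} (hs : IsHodge m s)
    (hne : s ≠ 0) (hcard : Multiset.card s ≤ 8) :
    Generated (2 * m) (SurfaceOrCurveProduct (2 * m))
      (s.map fun a => ((2 * a.val : ℕ) : ZMod (2 * m))) := by
  have hm0 : m ≠ 0 := by rintro rfl; simp at hm
  obtain ⟨m1, m2, h12, hs1, h3, h5, h7⟩ := exists_smooth hm0
  have hmodd : ∀ {d : ℕ}, d ∣ m → d % 2 = 1 := by
    intro d hd
    by_contra h
    have h1 : 2 ∣ m := (show 2 ∣ d by omega).trans hd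
    omega
  have hd1 : m1 % 2 = 1 := hmodd (Dvd.intro _ h12)
  refine main_odd hm h12 ?_ hs hne ?_
  · exact Or.inr (Or.inr (Or.inr (Or.inr (Or.inr (Or.inl ⟨by omega, Or.inl fun p hp hpm =>
      Or.inr (hs1 p hp hpm)⟩)))))
  · intro q hq hqm
    have hq2 : q % 2 = 1 := hmodd (hqm.trans (Dvd.intro_left _ h12))
    have hw := wq_le hm q s
    have hc : (Multiset.card s : ℤ) ≤ 8 := by exact_mod_cast hcard
    have e3 : q ≠ 3 := by rintro rfl; exact h3 hqm
    have e5 : q ≠ 5 := by rintro rfl; exact h5 hqm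
    have e7 : q ≠ 7 := by rintro rfl; exact h7 hqm
    have e1 : q ≠ 1 := hq.ne_one
    have e9 : q ≠ 9 := by rintro rfl; exact absurd hq (by norm_num)
    have e15 : q ≠ 15 := by rintro rfl; exact absurd hq (by norm_num)
    refine ⟨by omega, ?_⟩
    by_cases h18 : 18 < q
    · left
      have : (18 : ℤ) < q := by exact_mod_cast h18
      linarith
    · right
      have h11 : 11 ≤ q := by omega
      have : (11 : ℤ) ≤ q := by exact_mod_cast h11
      exact ⟨by omega, by linarith, Or.inr (by omega)⟩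

/-- at most ten entries -/
theorem main_ten {m : ℕ} (hm : m % 2 = 1) (h55 : ¬ 55 ∣ m) (h77 : ¬ 77 ∣ m)
    {s : Multiset (ZMod m)} (hs : IsHodge m s) (hne : s ≠ 0) (hcard : Multiset.card s ≤ 10) :
    Generated (2 * m) (SurfaceOrCurveProduct (2 * m))
      (s.map fun a => ((2 * a.val : ℕ) : ZMod (2 * m))) := by
  have hm0 : m ≠ 0 := by rintro rfl; simp at hm
  have hmodd : ∀ {d : ℕ}, d ∣ m → d % 2 = 1 := by
    intro d hd
    by_contra h
    have h1 : 2 ∣ m := (show 2 ∣ d by omega).trans hd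
    omega
  have hc : (Multiset.card s : ℤ) ≤ 10 := by exact_mod_cast hcard
  have key : ∀ q : ℕ, q.Prime → q ∣ m → q ≠ 3 → q ≠ 5 → q ≠ 7 → q ≠ 11 → Cond m q (wq q s) := by
    intro q hq hqm e3 e5 e7 e11
    have hq2 : q % 2 = 1 := hmodd hqm
    have hw := wq_le hm q s
    have e1 : q ≠ 1 := hq.ne_one
    have e9 : q ≠ 9 := by rintro rfl; exact absurd hq (by norm_num)
    have e15 : q ≠ 15 := by rintro rfl; exact absurd hq (by norm_num)
    have e21 : q ≠ 21 := by rintro rfl; exact absurd hq (by norm_num)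
    refine ⟨by omega, ?_⟩
    by_cases h18 : 22 < q
    · left
      have : (22 : ℤ) < q := by exact_mod_cast h18
      linarith
    · right
      have h11 : 13 ≤ q := by omega
      have : (13 : ℤ) ≤ q := by exact_mod_cast h11
      exact ⟨by omega, by linarith, Or.inr (by omega)⟩
  by_cases h11 : 11 ∣ m
  · have h5 : ¬ 5 ∣ m := by
      intro h
      exact h55 ((show Nat.Coprime 5 11 by norm_num).mul_dvd_of_dvd_of_dvd h h11)
    have h7 : ¬ 7 ∣ m := by
      intro h
      exact h77 ((show Nat.Coprime 7 11 by norm_num).mul_dvd_of_dvd_of_dvd h h11)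
    obtain ⟨a, u, hu, e1⟩ := Nat.exists_eq_pow_mul_and_not_dvd hm0 3 (by norm_num)
    have hu0 : u ≠ 0 := by rintro rfl; exact hu (dvd_zero _)
    obtain ⟨b, v, hv, e2⟩ := Nat.exists_eq_pow_mul_and_not_dvd hu0 11 (by norm_num)
    have h12 : (3 ^ a * 11 ^ b) * v = m := by rw [e1, e2]; ring
    refine main_odd hm h12 ?_ hs hne ?_
    · refine Or.inr (Or.inr (Or.inr (Or.inl fun p hp hpd => Or.inr ?_)))
      rcases hp.dvd_mul.mp hpd with h | h
      · left
        exact (Nat.prime_dvd_prime_iff_eq hp Nat.prime_three).mp (hp.dvd_of_dvd_pow h)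
      · right
        exact (Nat.prime_dvd_prime_iff_eq hp (by norm_num)).mp (hp.dvd_of_dvd_pow h)
    · intro q hq hqv
      have hqm : q ∣ m := hqv.trans (Dvd.intro_left _ h12)
      refine key q hq hqm ?_ ?_ ?_ ?_
      · rintro rfl
        exact hu (by rw [e2]; exact Dvd.dvd.mul_left hqv _)
      · rintro rfl; exact h5 hqm
      · rintro rfl; exact h7 hqm
      · rintro rfl; exact hv hqv
  · obtain ⟨m1, m2, h12, hs1, h3, h5, h7⟩ := exists_smooth hm0
    have hd1 : m1 % 2 = 1 := hmodd (Dvd.intro _ h12)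
    refine main_odd hm h12 ?_ hs hne ?_
    · exact Or.inr (Or.inr (Or.inr (Or.inr (Or.inr (Or.inl ⟨by omega, Or.inl fun p hp hpm =>
        Or.inr (hs1 p hp hpm)⟩)))))
    · intro q hq hqm
      have hqm' : q ∣ m := hqm.trans (Dvd.intro_left _ h12)
      refine key q hq hqm' ?_ ?_ ?_ ?_
      · rintro rfl; exact h3 hqm
      · rintro rfl; exact h5 hqm
      · rintro rfl; exact h7 hqm
      · rintro rfl; exact h11 hqm'

end Pool.Agent.Q59.PL
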