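import Pool.Agent.Q59.PL.Core
import Pool.Agent.Q59.RL.Level

/-!
# Finite determination for characters of bounded size, uniformly in the degree
-/

namespace Pool.Agent.Q59.PL

open Finset Pool.Agent.H916R2 Pool.Agent.Q59.FS Pool.Agent.Q59.RL
open Pool.Agent.Q59.SX (sum_of_generated sum_level rel_level)

section Split

/-- the part of `m` composed of the primes of a list -/
lemma exists_split (L : List ℕ) (hL : ∀ p ∈ L, p.Prime) : ∀ m : ℕ, m ≠ 0 →
    ∃ m1 m2 : ℕ, m1 * m2 = m ∧ (∀ p : ℕ, p.Prime → p ∣ m1 → p ∈ L) ∧ ∀ p ∈ L, ¬ p ∣ m2 := by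
  induction L with
  | nil =>
    intro m _
    refine ⟨1, m, one_mul m, fun p hp h => ?_, fun p hp => absurd hp List.not_mem_nil⟩
    exact absurd (Nat.dvd_one.mp h) hp.ne_one
  | cons r L ih =>
    intro m hm
    have hr := hL r (List.mem_cons_self ..)
    obtain ⟨a, u, hu, e1⟩ := Nat.exists_eq_pow_mul_and_not_dvd hm r hr.ne_one
    have hu0 : u ≠ 0 := by rintro rfl; exact hu (dvd_zero _)
    obtain ⟨m1, m2, h12, h1, h2⟩ := ih (fun p hp => hL p (List.mem_cons_of_mem _ hp)) u hu0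
    refine ⟨r ^ a * m1, m2, by rw [e1, ← h12]; ring, fun p hp hpm => ?_, fun p hp => ?_⟩
    · rcases hp.dvd_mul.mp hpm with h | h
      · rw [(Nat.prime_dvd_prime_iff_eq hp hr).mp (hp.dvd_of_dvd_pow h)]
        exact List.mem_cons_self ..
      · exact List.mem_cons_of_mem _ (h1 p hp h)
    · rcases List.mem_cons.mp hp with rfl | hp
      · intro h
        exact hu (by rw [← h12]; exact Dvd.dvd.mul_left h m1)
      · exact h2 p hp

end Split

section Peel

variable {m : ℕ} [NeZero m] {Q : Type} [AddCommGroup Q] {C : ZMod m → Q}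

/-- several large primes -/
theorem peel_simple_list (hC : OddDist C) : ∀ L : List ℕ, (∀ q ∈ L, q.Prime ∧ 5 ≤ q) →
    ∀ x : ZMod m → ℤ, Rel x → (∀ q ∈ L, nq q x < (q : ℤ) - 1) →
      ∃ y, Rel y ∧ ∑ a, x a • C a = ∑ a, y a • C a ∧
        (∀ q ∈ L, ∀ a, q ∣ addOrderOf a → od y a = 0) ∧ Dom y x := by
  intro L
  induction L with
  | nil => exact fun _ x hx _ => ⟨x, hx, rfl, fun q hq => absurd hq List.not_mem_nil,
      fun _ _ _ _ _ => le_rfl⟩
  | cons q L ih =>
    intro hL x hx hc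
    obtain ⟨hq, hq5⟩ := hL q (List.mem_cons_self ..)
    obtain ⟨y, h1, h2, h3⟩ := peel_simple hq (by omega) hx (hc q (List.mem_cons_self ..))
    have hd : Dom y x := Dom.of_off h2 h3
    obtain ⟨z, hz, hyz, hz0, hd'⟩ := ih (fun p hp => hL p (List.mem_cons_of_mem _ hp)) y
      (h1.rel hx) (fun p hp => lt_of_le_of_lt
        (hd.nq_le (hL p (List.mem_cons_of_mem _ hp)).1 (by
          have := (hL p (List.mem_cons_of_mem _ hp)).2
          omega)) (hc p (List.mem_cons_of_mem _ hp)))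
    refine ⟨z, hz, (sum_eqv hC h1).symm.trans hyz, fun p hp a ha => ?_, hd'.trans hd⟩
    rcases List.mem_cons.mp hp with rfl | hp
    · have h4 := hd' p hq (by omega) a ha
      rw [h3 a ha, abs_zero] at h4
      exact abs_nonpos_iff.mp h4
    · exact hz0 p hp a ha

/-- weights are at most twice the number of entries -/
lemma wq_le_two (q : ℕ) (s : Multiset (ZMod m)) : wq q s ≤ 2 * Multiset.card s := by
  unfold wq
  induction s using Multiset.induction_on with
  | empty => simp
  | cons a s ih =>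
    rw [Multiset.map_cons, Multiset.sum_cons, Multiset.card_cons]
    have h1 : (if q ∣ addOrderOf a then wo (addOrderOf a) else 0) ≤ 2 := by
      split_ifs
      · exact wo_le _
      · norm_num
    push_cast
    linarith

end Peel

/-- the primes up to `B` -/
def primesUpTo (B : ℕ) : List ℕ := (List.range (B + 1)).filter Nat.Prime

lemma mem_primesUpTo {B p : ℕ} : p ∈ primesUpTo B ↔ p.Prime ∧ p ≤ B := by
  unfold primesUpTo
  rw [List.mem_filter, List.mem_range, decide_eq_true_eq]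
  constructor
  · rintro ⟨h1, h2⟩; exact ⟨h2, by omega⟩
  · rintro ⟨h1, h2⟩; exact ⟨by omega, h1⟩

/-- **Uniform finite determination.** -/
theorem bounded_determination (N m0 : ℕ) (hm0 : 0 < m0) (h40 : 4 ∣ m0)
    (hm0p : ∀ p : ℕ, p.Prime → p ≤ 4 * N + 1 → p ∣ m0) :
    ∃ F : Finset (Multiset (ZMod m0)),
      F.card ≤ 2 ^ ((levels m0).card - 1) - 1 ∧
      (∀ f ∈ F, IsHodge m0 f ∧ Multiset.card f ≤ m0.primeFactors.card * m0) ∧
      ∀ A : ∀ m : ℕ, Multiset (ZMod m) → Prop, AdmSys A → (∀ f ∈ F, A m0 f) →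
        ∀ m : ℕ, 0 < m → ∀ s : Multiset (ZMod m), IsHodge m s → Multiset.card s ≤ N → A m s := by
  obtain ⟨F, hF1, hF2, hF3⟩ := finite_determination m0 hm0
  refine ⟨F, hF1, hF2, fun A hA hFA m hm s hs hcard => ?_⟩
  have : NeZero m := ⟨hm.ne'⟩
  by_cases hs0 : s = 0
  · rw [hs0]
    exact hA.empty hm
  have hN : 0 < N := lt_of_lt_of_le (Multiset.card_pos.mpr hs0) hcard
  set C := cQ m (A m) with hC
  have hCd : OddDist C := cQ_oddDist
  obtain ⟨m1, m2, h12, hp1, hp2⟩ := exists_split (primesUpTo (4 * N + 1))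
    (fun p hp => (mem_primesUpTo.mp hp).1) m hm.ne'
  have hm20 : m2 ≠ 0 := by rintro rfl; rw [mul_zero] at h12; exact hm.ne h12
  have hm10 : m1 ≠ 0 := by rintro rfl; rw [zero_mul] at h12; exact hm.ne h12
  have : NeZero m1 := ⟨hm10⟩
  have hbig : ∀ q ∈ m2.primeFactorsList, q.Prime ∧ 4 * N + 1 < q := by
    intro q hq
    have h1 := (Nat.mem_primeFactorsList hm20).mp hq
    refine ⟨h1.1, ?_⟩
    by_contra hcon
    exact hp2 q (mem_primesUpTo.mpr ⟨h1.1, not_lt.mp hcon⟩) h1.2
  obtain ⟨y, hy, hxy, hy0, -⟩ := peel_simple_list hCd m2.primeFactorsList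
    (fun q hq => ⟨(hbig q hq).1, by have := (hbig q hq).2; omega⟩)
    (fun a => ((s.count a : ℕ) : ℤ)) hs.rel (fun q hq => by
      have h1 := nq_count_le q s
      have h2 := wq_le_two q s
      have h3 : (Multiset.card s : ℤ) ≤ N := by exact_mod_cast hcard
      have h4 : ((4 * N + 1 : ℕ) : ℤ) < q := by exact_mod_cast (hbig q hq).2
      push_cast at h4
      linarith)
  -- the remaining orders divide `m1`
  have hord : ∀ a, od y a ≠ 0 → addOrderOf a ∣ m1 := by
    intro a ha
    have h1 : addOrderOf a ∣ m1 * m2 := by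
      have := addOrderOf_dvd_card (x := a)
      rw [ZMod.card] at this
      rw [h12]; exact this
    refine Nat.Coprime.dvd_of_dvd_mul_right ?_ h1
    refine Nat.coprime_of_dvd fun p hp hpa hpm2 => ?_
    exact ha (hy0 p ((Nat.mem_primeFactorsList hm20).mpr ⟨hp, hpm2⟩) a hpa)
  have hodx : ∀ a, od y a = od (posP (od y)) a := fun a => by
    have : posP (od y) a - posP (od y) (-a) = od y a := posP_sub (od_neg y a)
    exact this.symm
  have hkill : ∀ (Q : Type) [AddCommGroup Q] (c : ZMod m → Q), OddDist c →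
      ∑ a, posP (od y) a • c a = ∑ a, y a • c a := fun Q _ c hc => (od_kill hodx hc).symm
  have hz : ∀ a, posP (od y) a ≠ 0 → addOrderOf a ∣ m1 := by
    intro a ha
    refine hord a fun h0 => ha ?_
    unfold posP
    rw [h0]
    rfl
  have hk : m2 * m1 = m := by rw [mul_comm]; exact h12
  have hzR : Rel (posP (od y)) := rel_of_eq hy hkill
  obtain ⟨t, ht, htsum⟩ := exists_hodge _ (rel_level hk hz hzR)
  have hAt : A m1 t := by
    refine hF3 A hA hFA m1 (Nat.pos_of_ne_zero hm10) (fun p hp hpm => ?_) (fun _ => h40) t ht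
    exact hm0p p hp (mem_primesUpTo.mp (hp1 p hp hpm)).2
  have hAt' := (hA.level m2 m1 m hm hk t).mp hAt
  have h0 : ∑ a, ((s.count a : ℕ) : ℤ) • C a = 0 := by
    rw [hxy, ← hkill _ C hCd, sum_level hk hz, htsum _ _ (hCd.comp_iota hk)]
    have h2 := cQ_sum_eq_zero (Generated.ofBase (m := m) (base := A m) _ hAt')
    rw [Multiset.map_map] at h2
    exact h2
  rw [sum_count, hC, cQ_sum, QuotientAddGroup.eq_zero_iff] at h0
  refine (hA.adm m hm).gen (generated_of_mem_LL (fun u hu => ?_) (fun u hu => ?_) hs.1 hs.2.1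
    hs0 h0)
  · have := (hA.adm m hm).hodge u hu
    exact ⟨this.1, this.2.1⟩
  · exact (hA.adm m hm).neg u hu

end Pool.Agent.Q59.PL
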