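import Pool.Agent.Q59.PL.Ext

/-!
# Pairing of the top part with bounded functionals
-/

namespace Pool.Agent.Q59.PL

open Finset Pool.Agent.H916R2 Pool.Agent.Q59.FS

section Base

variable {m R d : ℕ} [NeZero m] [NeZero d]

/-- the base distribution -/
theorem base_PB (hR : R * d = m) {q : ℕ} {b : (ZMod d)ˣ → ℚ}
    (hodd : ∀ u, b (-u) = - b u) (hb1 : ∀ u, |b u| ≤ 1)
    (hb : ∀ ℓ : ℕ, ℓ.Prime → ℓ ≠ q → ℓ ∣ d → ∀ u, ∑ κ ∈ KF (KL d ℓ), b (u * κ) = 0) :
    ∃ φ : ZMod m → ℚ, PB q d d φ ∧ ∀ u : (ZMod d)ˣ, φ (iota R (u : ZMod d)) = b u := by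
  classical
  set φ : ZMod m → ℚ := fun a =>
    if h : ∃ u : (ZMod d)ˣ, (iota R (u : ZMod d) : ZMod m) = a then b h.choose else 0 with hφ
  have v1 : ∀ u : (ZMod d)ˣ, φ (iota R (u : ZMod d)) = b u := by
    intro u
    have h : ∃ v : (ZMod d)ˣ, (iota R (v : ZMod d) : ZMod m) = iota R (u : ZMod d) := ⟨u, rfl⟩
    simp only [hφ]
    rw [dif_pos h]
    have h1 : h.choose = u := Units.ext (iota_inj hR h.choose_spec)
    rw [h1]
  have v2 : ∀ a, φ a ≠ 0 → ∃ u : (ZMod d)ˣ, (iota R (u : ZMod d) : ZMod m) = a := by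
    intro a ha
    by_contra hcon
    apply ha
    simp only [hφ]
    rw [dif_neg hcon]
  have v3 : ∀ a, φ a ≠ 0 → addOrderOf a = d := by
    intro a ha
    obtain ⟨u, rfl⟩ := v2 a ha
    exact addOrderOf_iota_unit hR u
  refine ⟨φ, ⟨?_, ?_, ?_, ?_, ?_⟩, v1⟩
  · intro a
    by_cases h : ∃ u : (ZMod d)ˣ, (iota R (u : ZMod d) : ZMod m) = a
    · obtain ⟨u, rfl⟩ := h
      rw [← iota_neg hR, ← Units.val_neg, v1, v1, hodd]
    · have h1 : φ a = 0 := by
        by_contra h0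
        exact h (v2 a h0)
      have h2 : φ (-a) = 0 := by
        by_contra h0
        obtain ⟨u, hu⟩ := v2 _ h0
        apply h
        refine ⟨-u, ?_⟩
        rw [Units.val_neg, iota_neg hR, hu, neg_neg]
      rw [h1, h2, neg_zero]
  · intro a ha
    rw [← v3 a ha, ← nsmul_eq_mul, addOrderOf_nsmul_eq_zero]
  · intro a ha
    rw [v3 a ha]
  · intro a
    have h0 := wo_one_le (addOrderOf a)
    by_cases h : φ a = 0
    · rw [h, abs_zero]; linarith
    · obtain ⟨u, rfl⟩ := v2 a h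
      rw [v1]
      exact (hb1 u).trans h0
  · intro p e hp hpq hpe hpd a ha
    have hdpos : 0 < d := NeZero.pos d
    obtain ⟨d', hd'⟩ := hpd
    have hd'0 : 0 < d' := Nat.pos_of_ne_zero (by rintro rfl; rw [mul_zero] at hd'; omega)
    have : NeZero d' := ⟨hd'0.ne'⟩
    have hrhs : φ ((p : ZMod m) * a) = 0 := by
      by_contra h0
      have h1 := v3 _ h0
      have h2 : addOrderOf ((p : ZMod m) * a) ∣ d' := by
        rw [addOrderOf_dvd_iff_nsmul_eq_zero, nsmul_eq_mul]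
        have := ha
        rw [hd'] at this
        push_cast at this
        linear_combination this
      rw [h1] at h2
      have h3 := Nat.le_of_dvd hd'0 h2
      have h4 : d' < d := by rw [hd']; exact lt_mul_of_one_lt_left hd'0 hp.one_lt
      omega
    rw [hrhs]
    by_cases hall : ∀ i ∈ range p, φ (a + (i : ZMod m) * (e : ZMod m)) = 0
    · exact sum_eq_zero hall
    · push Not at hall
      obtain ⟨i0, _, hi0⟩ := hall
      obtain ⟨u, hu⟩ := v2 _ hi0
      have he : e = R * d' := by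
        have h1 : p * e = p * (R * d') := by rw [hpe, ← hR, hd']; ring
        exact Nat.eq_of_mul_eq_mul_left hp.pos h1
      rw [← coset_sum_shift_mul φ hpe a i0, ← hu, he]
      rw [coset_decomp hR hp hd'.symm φ u]
      have h1 : ∑ κ ∈ KF (KK hd'.symm), φ (iota R ((u * κ : (ZMod d)ˣ) : ZMod d)) = 0 := by
        have h2 := hb p hp hpq ⟨d', hd'⟩ u
        rw [KL_eq_KK hp.pos hd'.symm] at h2
        rw [← h2]
        exact sum_congr rfl fun κ _ => v1 _
      rw [h1, zero_add]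
      split_ifs with hc
      · by_contra h0
        have h2 := v3 _ h0
        have hRp : R * p * d' = m := by rw [mul_assoc, ← hd', hR]
        rw [addOrderOf_iota_unit hRp] at h2
        have h4 : d' < d := by rw [hd']; exact lt_mul_of_one_lt_left hd'0 hp.one_lt
        omega
      · rfl

end Base

section Pair

variable {m : ℕ} [NeZero m]

/-- equality modulo the relations of the primes different from `q` -/
def Eqv (q : ℕ) (x y : ZMod m → ℤ) : Prop :=
  ∀ (Q : Type) [AddCommGroup Q] (c : ZMod m → Q), Part q c → ∑ a, x a • c a = ∑ a, y a • c a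

lemma Eqv.refl (q : ℕ) (x : ZMod m → ℤ) : Eqv q x x := fun _ _ _ _ => rfl

lemma Eqv.symm {q : ℕ} {x y : ZMod m → ℤ} (h : Eqv q x y) : Eqv q y x :=
  fun Q _ c hc => (h Q c hc).symm

lemma Eqv.trans {q : ℕ} {x y z : ZMod m → ℤ} (h : Eqv q x y) (h' : Eqv q y z) : Eqv q x z :=
  fun Q _ c hc => (h Q c hc).trans (h' Q c hc)

lemma Eqv.rel {q : ℕ} {x y : ZMod m → ℤ} (h : Eqv q y x) (hx : Rel x) : Rel y :=
  rel_of_eq hx fun Q _ c hc => h Q c (Part.of_oddDist q hc)

/-- the weighted norm of the part of `x` in the orders divisible by `q` -/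
noncomputable def nq (q : ℕ) (x : ZMod m → ℤ) : ℤ :=
  ∑ a ∈ univ.filter (fun a : ZMod m => q ∣ addOrderOf a), wo (addOrderOf a) * |od x a|

lemma two_pair (x : ZMod m → ℤ) {φ : ZMod m → ℚ} (hφ : ∀ a, φ (-a) = - φ a) :
    ∑ a, (od x a : ℚ) * φ a = 2 * ∑ a, x a • φ a := by
  have h4 : ∑ a, (x (-a) : ℚ) * φ a = - ∑ a, (x a : ℚ) * φ a := by
    rw [← sum_neg_distrib]
    refine Fintype.sum_equiv (Equiv.neg _) _ _ fun a => ?_
    simp only [Equiv.neg_apply]
    rw [hφ]; ring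
  unfold od
  push_cast
  simp only [sub_mul, zsmul_eq_mul]
  rw [sum_sub_distrib, h4]
  ring

/-- **The pairing inequality.** -/
theorem pairing {q : ℕ} (hq : q.Prime) {R d : ℕ} [NeZero d] (hR : R * d = m) (hqd : q ∣ d)
    {x x0 : ZMod m → ℤ} (hE : Eqv q x x0)
    (htop : ∀ a, od x a ≠ 0 → d ∣ addOrderOf a → addOrderOf a = d)
    {b : (ZMod d)ˣ → ℚ} (hodd : ∀ u, b (-u) = - b u) (hb1 : ∀ u, |b u| ≤ 1)
    (hb : ∀ ℓ : ℕ, ℓ.Prime → ℓ ≠ q → ℓ ∣ d → ∀ u, ∑ κ ∈ KF (KL d ℓ), b (u * κ) = 0) :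
    |∑ u : (ZMod d)ˣ, (od x (iota R (u : ZMod d)) : ℚ) * b u| ≤ nq q x0 := by
  classical
  obtain ⟨φ0, h0, h0'⟩ := base_PB hR hodd hb1 hb
  obtain ⟨φ, h1, h1'⟩ := h0.extend hq (Dvd.intro_left R hR)
  have hval : ∀ u : (ZMod d)ˣ, φ (iota R (u : ZMod d)) = b u := by
    intro u
    rw [h1' _ ?_, h0']
    have := addOrderOf_nsmul_eq_zero (iota R (u : ZMod d) : ZMod m)
    rw [addOrderOf_iota_unit hR u, nsmul_eq_mul] at this
    exact this
  have h2 : ∑ a, (od x a : ℚ) * φ a = ∑ a, (od x0 a : ℚ) * φ a := by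
    rw [two_pair x h1.neg, two_pair x0 h1.neg, hE ℚ φ h1.part]
  have h4 : ∑ a, ((od x a : ℤ) : ℚ) * φ a =
      ∑ a ∈ univ.filter (fun a : ZMod m => addOrderOf a = d), ((od x a : ℤ) : ℚ) * φ a := by
    symm
    apply sum_subset (subset_univ _)
    intro a _ ha
    have hne : addOrderOf a ≠ d := fun h => ha (mem_filter.mpr ⟨mem_univ _, h⟩)
    by_cases h5 : φ a = 0
    · rw [h5, mul_zero]
    · by_cases h6 : od x a = 0
      · rw [h6]; simp
      · exact absurd (htop a h6 (h1.ord a h5)) hne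
  have h5 : ∑ u : (ZMod d)ˣ, (od x (iota R (u : ZMod d)) : ℚ) * b u =
      ∑ a, (od x0 a : ℚ) * φ a := by
    rw [← h2, h4, sum_order hR]
    exact sum_congr rfl fun u _ => by rw [hval]
  rw [h5]
  have h6 : ∑ a, (od x0 a : ℚ) * φ a =
      ∑ a ∈ univ.filter (fun a : ZMod m => q ∣ addOrderOf a), (od x0 a : ℚ) * φ a := by
    symm
    apply sum_subset (subset_univ _)
    intro a _ ha
    have h7 : φ a = 0 := by
      by_contra h8
      exact ha (mem_filter.mpr ⟨mem_univ _, hqd.trans (h1.ord a h8)⟩)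
    rw [h7, mul_zero]
  rw [h6]
  unfold nq
  push_cast
  refine (abs_sum_le_sum_abs _ _).trans (sum_le_sum fun a _ => ?_)
  rw [abs_mul, mul_comm]
  exact mul_le_mul_of_nonneg_right (h1.bd a) (abs_nonneg _)

end Pair

end Pool.Agent.Q59.PL
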