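import Pool.Agent.Q59.PL.Base

/-!
# Boxes
-/

namespace Pool.Agent.Q59.PL

open Finset Pool.Agent.Q59.FS

variable {G : Type*} [CommGroup G] [Fintype G]

/-- a bounded functional with vanishing coset sums which does not kill `F` -/
structure IsBox (P : List (Subgroup G)) (u : G) (F b : G → ℤ) : Prop where
  zero : Z0 P b
  le : ∀ w, |b w| ≤ 1
  supp : ∀ w, b w ≠ 0 → u⁻¹ * w ∈ jn P
  ne : ∑ w, F w * b w ≠ 0

/-- the step -/
lemma IsBox.cons {K : Subgroup G} {P : List (Subgroup G)} (hK : K ⊓ jn P = ⊥) {F : G → ℤ} {u κ κ' : G}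
    (hκ : κ ∈ K) (hκ' : κ' ∈ K) {b : G → ℤ} (h : IsBox P u (fun w => F (w * κ) - F (w * κ')) b) :
    IsBox (K :: P) u F (fun w => b (w * κ⁻¹) - b (w * κ'⁻¹)) := by
  classical
  have hne : κ ≠ κ' := by
    rintro rfl
    apply h.ne
    simp
  have hshift : ∀ (f : G → ℤ) (x : G), ∑ w, F w * f (w * x⁻¹) = ∑ w, F (w * x) * f w := by
    intro f x
    symm
    refine Fintype.sum_equiv (Equiv.mulRight x) _ _ fun w => ?_
    simp
  refine ⟨?_, ?_, ?_, ?_⟩
  · intro K' hK' v
    rw [sum_sub_distrib]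
    rcases List.mem_cons.mp hK' with rfl | h1
    · have h2 : ∀ x ∈ K', ∑ y ∈ KF K', b (v * y * x⁻¹) = ∑ y ∈ KF K', b (v * y) := by
        intro x hx
        have := sum_KF_mul (K'.inv_mem hx) (fun y => b (v * y))
        rw [← this]
        refine sum_congr rfl fun y _ => ?_
        rw [mul_comm x⁻¹ y, mul_assoc]
      rw [h2 κ hκ, h2 κ' hκ', sub_self]
    · have h2 : ∀ x : G, ∑ y ∈ KF K', b (v * y * x⁻¹) = 0 := by
        intro x
        have := h.zero K' h1 (v * x⁻¹)
        rw [← this]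
        refine sum_congr rfl fun y _ => ?_
        congr 1
        rw [mul_right_comm]
      rw [h2, h2, sub_zero]
  · intro w
    by_cases h1 : b (w * κ⁻¹) = 0
    · rw [h1, zero_sub, abs_neg]; exact h.le _
    · by_cases h2 : b (w * κ'⁻¹) = 0
      · rw [h2, sub_zero]; exact h.le _
      · exfalso
        apply hne
        have h3 := h.supp _ h1
        have h4 := h.supp _ h2
        have h5 : κ' * κ⁻¹ ∈ K ⊓ jn P := by
          refine ⟨K.mul_mem hκ' (K.inv_mem hκ), ?_⟩
          have h6 := (jn P).mul_mem h3 ((jn P).inv_mem h4)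
          have e : u⁻¹ * (w * κ⁻¹) * (u⁻¹ * (w * κ'⁻¹))⁻¹ = κ' * κ⁻¹ := by
            rw [mul_inv_eq_iff_eq_mul]
            calc u⁻¹ * (w * κ⁻¹) = u⁻¹ * (w * κ⁻¹) * (κ' * κ'⁻¹) := by rw [mul_inv_cancel, mul_one]
              _ = _ := by simp only [mul_comm, mul_left_comm, mul_assoc]
          rwa [e] at h6
        rw [hK, Subgroup.mem_bot] at h5
        exact (mul_inv_eq_one.mp h5).symm
  · intro w hw
    have h1 : b (w * κ⁻¹) ≠ 0 ∨ b (w * κ'⁻¹) ≠ 0 := by
      by_contra hcon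
      push Not at hcon
      apply hw
      rw [hcon.1, hcon.2, sub_zero]
    rcases h1 with h1 | h1
    · have h2 := Subgroup.mul_mem_sup hκ (h.supp _ h1)
      have e : κ * (u⁻¹ * (w * κ⁻¹)) = u⁻¹ * w := by
        rw [mul_comm κ, mul_assoc, mul_assoc, inv_mul_cancel, mul_one]
      rwa [e] at h2
    · have h2 := Subgroup.mul_mem_sup hκ' (h.supp _ h1)
      have e : κ' * (u⁻¹ * (w * κ'⁻¹)) = u⁻¹ * w := by
        rw [mul_comm κ', mul_assoc, mul_assoc, inv_mul_cancel, mul_one]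
      rwa [e] at h2
  · simp only [mul_sub]
    rw [sum_sub_distrib, hshift b κ, hshift b κ', ← sum_sub_distrib]
    have h1 := h.ne
    simp only [sub_mul] at h1
    exact h1

omit [Fintype G] in
lemma TT_slice (F : G → ℤ) (u κ κ' : G) :
    (fun v => TT u F (v * κ) - TT u F (v * κ')) = TT u (fun w => F (w * κ) - F (w * κ')) := by
  funext v
  simp only [TT_apply, mul_assoc]

theorem exists_box {P : List (Subgroup G)} (hP : Ind P) : ∀ {F : G → ℤ} {u : G},
    ¬ LB P (TT u F) → ∃ b, IsBox P u F b := by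
  classical
  induction P with
  | nil =>
    intro F u h
    have h1 : F u ≠ 0 := by
      intro h0
      apply h
      change F (u * 1) = 0
      rw [mul_one, h0]
    refine ⟨fun w => if w = u then 1 else 0, fun K hK => absurd hK (List.not_mem_nil), ?_, ?_, ?_⟩
    · intro w
      split_ifs <;> simp
    · intro w hw
      have : w = u := by
        by_contra h2
        exact hw (if_neg h2)
      rw [this, inv_mul_cancel]
      exact Subgroup.one_mem _
    · simpa using h1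
  | cons K P ih =>
    intro F u h
    have h1 : ∃ κ ∈ K, ∃ κ' ∈ K, ¬ LB P (fun v => TT u F (v * κ) - TT u F (v * κ')) := by
      by_contra hcon
      push Not at hcon
      exact h hcon
    obtain ⟨κ, hκ, κ', hκ', h2⟩ := h1
    rw [TT_slice] at h2
    obtain ⟨b, hb⟩ := ih hP.2 h2
    exact ⟨_, hb.cons hP.1 hκ hκ'⟩

/-- a box which is disjoint from its opposite modulo `K` -/
theorem exists_box_disj {K K0 : Subgroup G} {P : List (Subgroup G)} (hP : Ind (K0 :: P))
    (hK0 : K0 ⊓ (K ⊔ jn P) = ⊥) (hcard : 3 ≤ Nat.card K0) {z : G} (hz : z * z = 1)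
    (hzn : z ∉ K ⊔ jn P) {F : G → ℤ} {u : G} (h : ¬ LB (K0 :: P) (TT u F)) :
    ∃ b, IsBox (K0 :: P) u F b ∧ ∀ w, ∀ κ ∈ K, b w ≠ 0 → b (z * w * κ) = 0 := by
  classical
  set S : Subgroup G := K ⊔ jn P with hS
  -- a good pair
  have h1 : ∃ κ ∈ K0, ∃ κ' ∈ K0, z * (κ * κ'⁻¹) ∉ S ∧ z * (κ' * κ⁻¹) ∉ S ∧
      ¬ LB P (fun v => TT u F (v * κ) - TT u F (v * κ')) := by
    by_contra hcon
    push Not at hcon
    apply h
    intro κ hκ κ' hκ'
    by_cases hg : z * (κ * κ'⁻¹) ∉ S ∧ z * (κ' * κ⁻¹) ∉ S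
    · exact hcon κ hκ κ' hκ' hg.1 hg.2
    · -- a third element
      have hthird : ∃ κ'' ∈ K0, κ'' ≠ κ ∧ κ'' ≠ κ' := by
        by_contra h3
        push Not at h3
        have h4 : KF K0 ⊆ {κ, κ'} := by
          intro x hx
          rw [mem_insert, mem_singleton]
          by_cases h5 : x = κ
          · exact Or.inl h5
          · exact Or.inr (h3 x (mem_KF.mp hx) h5)
        have h5 := card_le_card h4
        rw [card_KF] at h5
        have := Finset.card_le_two (a := κ) (b := κ')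
        omega
      obtain ⟨κ'', hκ'', hn1, hn2⟩ := hthird
      -- `z κ κ'⁻¹ ∈ S` or `z κ' κ⁻¹ ∈ S`, hence both
      have hboth : z * (κ * κ'⁻¹) ∈ S ∧ z * (κ' * κ⁻¹) ∈ S := by
        have key : ∀ a : G, z * a ∈ S → z * a⁻¹ ∈ S := by
          intro a ha
          have h3 := S.inv_mem ha
          have e : (z * a)⁻¹ = z * a⁻¹ := by
            rw [mul_inv]
            congr 1
            exact inv_eq_of_mul_eq_one_left hz
          rwa [e] at h3
        by_cases h3 : z * (κ * κ'⁻¹) ∈ S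
        · refine ⟨h3, ?_⟩
          have := key _ h3
          rwa [mul_inv, inv_inv, mul_comm κ⁻¹ κ'] at this
        · have h4 : z * (κ' * κ⁻¹) ∈ S := by
            by_contra h5
            exact hg ⟨h3, h5⟩
          refine ⟨?_, h4⟩
          have := key _ h4
          rwa [mul_inv, inv_inv, mul_comm κ'⁻¹ κ] at this
      have uniq : ∀ a ∈ K0, ∀ b ∈ K0, z * a ∈ S → z * b ∈ S → a = b := by
        intro a ha b hb h3 h4
        have h5 : a * b⁻¹ ∈ K0 ⊓ S := by
          refine ⟨K0.mul_mem ha (K0.inv_mem hb), ?_⟩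
          have h6 := S.mul_mem h3 (S.inv_mem h4)
          have e : z * a * (z * b)⁻¹ = a * b⁻¹ := by
            rw [mul_inv, mul_mul_mul_comm, mul_inv_cancel, one_mul]
          rwa [e] at h6
        rw [hK0, Subgroup.mem_bot] at h5
        exact mul_inv_eq_one.mp h5
      have g1 : z * (κ * κ''⁻¹) ∉ S := fun h3 => by
        have := uniq _ (K0.mul_mem hκ (K0.inv_mem hκ'')) _ (K0.mul_mem hκ (K0.inv_mem hκ')) h3
          hboth.1
        have h4 := mul_left_cancel this
        exact hn2 (inv_injective h4)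
      have g2 : z * (κ'' * κ⁻¹) ∉ S := fun h3 => by
        have := uniq _ (K0.mul_mem hκ'' (K0.inv_mem hκ)) _ (K0.mul_mem hκ' (K0.inv_mem hκ)) h3
          hboth.2
        exact hn2 (mul_right_cancel this)
      have g3 : z * (κ' * κ''⁻¹) ∉ S := fun h3 => by
        have := uniq _ (K0.mul_mem hκ' (K0.inv_mem hκ'')) _ (K0.mul_mem hκ' (K0.inv_mem hκ)) h3
          hboth.2
        have h4 := mul_left_cancel this
        exact hn1 (inv_injective h4)
      have g4 : z * (κ'' * κ'⁻¹) ∉ S := fun h3 => by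
        have := uniq _ (K0.mul_mem hκ'' (K0.inv_mem hκ')) _ (K0.mul_mem hκ (K0.inv_mem hκ')) h3
          hboth.1
        exact hn1 (mul_right_cancel this)
      have h3 := hcon κ hκ κ'' hκ'' g1 g2
      have h4 := hcon κ' hκ' κ'' hκ'' g3 g4
      have h5 := h3.sub h4
      have e : (fun v => TT u F (v * κ) - TT u F (v * κ')) = fun v =>
          (TT u F (v * κ) - TT u F (v * κ'')) - (TT u F (v * κ') - TT u F (v * κ'')) := by
        funext v; ring
      rw [e]; exact h5
  obtain ⟨κ, hκ, κ', hκ', hg1, hg2, h2⟩ := h1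
  rw [TT_slice] at h2
  obtain ⟨b, hb⟩ := exists_box hP.2 h2
  refine ⟨_, hb.cons hP.1 hκ hκ', ?_⟩
  intro w x hx hw
  by_contra hcon
  -- the supports
  have hsup : ∀ w, b (w * κ⁻¹) - b (w * κ'⁻¹) ≠ 0 →
      u⁻¹ * (w * κ⁻¹) ∈ jn P ∨ u⁻¹ * (w * κ'⁻¹) ∈ jn P := by
    intro w hw
    by_cases h3 : b (w * κ⁻¹) = 0
    · right
      apply hb.supp
      intro h4
      apply hw
      rw [h3, h4, sub_zero]
    · left
      exact hb.supp _ h3
  have hPS : jn P ≤ S := le_sup_right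
  have hKS : K ≤ S := le_sup_left
  have key : ∀ a b : G, u⁻¹ * (w * a⁻¹) ∈ jn P → u⁻¹ * (z * w * x * b⁻¹) ∈ jn P →
      z * (a * b⁻¹) ∈ S := by
    intro a b h3 h4
    have h5 := S.mul_mem (S.mul_mem (hPS h4) (S.inv_mem (hPS h3))) (S.inv_mem (hKS hx))
    have e : u⁻¹ * (z * w * x * b⁻¹) * (u⁻¹ * (w * a⁻¹))⁻¹ * x⁻¹ = z * (a * b⁻¹) := by
      rw [mul_inv_eq_iff_eq_mul, mul_inv_eq_iff_eq_mul]
      calc u⁻¹ * (z * w * x * b⁻¹) = u⁻¹ * (z * w * x * b⁻¹) * (a * a⁻¹) := by
            rw [mul_inv_cancel, mul_one]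
        _ = _ := by simp only [mul_comm, mul_left_comm, mul_assoc]
    rwa [e] at h5
  have hz0 : ∀ a : G, z * (a * a⁻¹) ∉ S := by
    intro a
    rw [mul_inv_cancel, mul_one]
    exact hzn
  rcases hsup w hw with h3 | h3 <;> rcases hsup _ hcon with h4 | h4
  · exact hz0 κ (key _ _ h3 h4)
  · exact hg1 (key _ _ h3 h4)
  · exact hg2 (key _ _ h3 h4)
  · exact hz0 κ' (key _ _ h3 h4)

section Key

variable {K : Subgroup G} {P : List (Subgroup G)} {z u : G} {F b : G → ℤ}

/-- the sum over `K` -/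
noncomputable def bb (K : Subgroup G) (b : G → ℤ) (w : G) : ℤ := ∑ κ ∈ KF K, b (w * κ)

lemma bb_exists (h : bb K b z ≠ 0) : ∃ κ ∈ K, b (z * κ) ≠ 0 := by
  by_contra hcon
  push Not at hcon
  exact h (sum_eq_zero fun κ hκ => hcon κ (mem_KF.mp hκ))

lemma bb_le (hI : K ⊓ jn P = ⊥) (hb : IsBox P u F b) (w : G) : |bb K b w| ≤ 1 := by
  by_cases h : bb K b w = 0
  · rw [h]; simp
  · obtain ⟨κ, hκ, h1⟩ := bb_exists h
    have h2 : bb K b w = b (w * κ) := by
      unfold bb
      refine sum_eq_single κ ?_ (fun h3 => absurd (mem_KF.mpr hκ) h3)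
      intro κ' hκ' hne
      by_contra h3
      apply hne
      have h4 := hb.supp _ h1
      have h5 := hb.supp _ h3
      have h6 : κ' * κ⁻¹ ∈ K ⊓ jn P := by
        refine ⟨K.mul_mem (mem_KF.mp hκ') (K.inv_mem hκ), ?_⟩
        have h7 := (jn P).mul_mem h5 ((jn P).inv_mem h4)
        have e : u⁻¹ * (w * κ') * (u⁻¹ * (w * κ))⁻¹ = κ' * κ⁻¹ := by
          rw [mul_inv_eq_iff_eq_mul]
          calc u⁻¹ * (w * κ') = u⁻¹ * (w * κ') * (κ * κ⁻¹) := by rw [mul_inv_cancel, mul_one]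
            _ = _ := by simp only [mul_comm, mul_left_comm, mul_assoc]
        rwa [e] at h7
      rw [hI, Subgroup.mem_bot] at h6
      exact mul_inv_eq_one.mp h6
    rw [h2]
    exact hb.le _

lemma bb_zero (hb : Z0 P b) : Z0 P (bb K b) := by
  intro K' hK' v
  unfold bb
  rw [sum_comm]
  refine sum_eq_zero fun κ _ => ?_
  have := hb K' hK' (v * κ)
  rw [← this]
  refine sum_congr rfl fun y _ => ?_
  congr 1
  rw [mul_right_comm]

lemma bb_sum (hb : Z0 P b) (hrel : ∀ b : G → ℤ, Z0 (K :: P) b → ∑ w, F w * b w = 0) :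
    ∑ w, F w * bb K b w = Nat.card K * ∑ w, F w * b w := by
  have h1 : ∀ κ ∈ KF K, ∑ w, F w * b (w * κ) = ∑ w, F w * b w := by
    intro κ hκ
    have h2 := hrel (fun w => b w - b (w * κ)) (by
      intro K' hK' v
      rw [sum_sub_distrib]
      rcases List.mem_cons.mp hK' with rfl | h3
      · have h4 := sum_KF_mul (mem_KF.mp hκ) (fun y => b (v * y))
        rw [← h4, sub_eq_zero]
        refine sum_congr rfl fun y _ => ?_
        congr 1
        simp only [mul_comm, mul_left_comm]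
      · have h4 := hb K' h3 v
        have h5 := hb K' h3 (v * κ)
        rw [h4, zero_sub, neg_eq_zero, ← h5]
        refine sum_congr rfl fun y _ => ?_
        congr 1
        rw [mul_right_comm])
    simp only [mul_sub] at h2
    rw [sum_sub_distrib] at h2
    linarith
  unfold bb
  simp only [mul_sum]
  rw [sum_comm, sum_congr rfl h1, sum_const, card_KF, nsmul_eq_mul, mul_sum]

/-- twice the sum -/
lemma bb_odd (hF : ∀ w, F (z * w) = - F w) (f : G → ℤ) :
    ∑ w, F w * (f w - f (z * w)) = 2 * ∑ w, F w * f w := by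
  have h1 : ∑ w, F w * f (z * w) = - ∑ w, F w * f w := by
    rw [← sum_neg_distrib]
    refine Fintype.sum_equiv (Equiv.mulLeft z) _ _ fun w => ?_
    simp only [Equiv.coe_mulLeft]
    rw [hF]; ring
  simp only [mul_sub]
  rw [sum_sub_distrib, h1]
  ring

/-- **The key lemma, simple version.** -/
theorem key_simple (hI : Ind (K :: P)) (hz : z * z = 1) (hF : ∀ w, F (z * w) = - F w)
    (hrel : ∀ b : G → ℤ, Z0 (K :: P) b → ∑ w, F w * b w = 0) {n : ℤ}
    (hpair : ∀ b : G → ℚ, (∀ w, b (z * w) = - b w) → (∀ w, |b w| ≤ 1) →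
      (∀ K' ∈ P, ∀ u, ∑ κ ∈ KF K', b (u * κ) = 0) → |∑ w, (F w : ℚ) * b w| ≤ n)
    (hn : n < Nat.card K) (u : G) : LB P (TT u F) := by
  by_contra hcon
  obtain ⟨b, hb⟩ := exists_box hI.2 hcon
  have h1 := bb_sum hb.zero hrel
  have h2 := bb_odd hF (bb K b)
  have h3 := hpair (fun w => ((bb K b w - bb K b (z * w) : ℤ) : ℚ) / 2) (by
    intro w
    rw [← mul_assoc, hz, one_mul]
    push_cast; ring) (by
    intro w
    rw [abs_div, abs_of_pos (by norm_num : (0 : ℚ) < 2), div_le_one (by norm_num)]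
    have k1 := bb_le hI.1 hb w
    have k2 := bb_le hI.1 hb (z * w)
    have k3 := abs_sub (bb K b w) (bb K b (z * w))
    rw [← Int.cast_abs]
    have : |bb K b w - bb K b (z * w)| ≤ 2 := by linarith
    exact_mod_cast this) (by
    intro K' hK' v
    rw [← sum_div, ← Int.cast_sum, sum_sub_distrib, bb_zero hb.zero K' hK' v]
    have : ∑ κ ∈ KF K', bb K b (z * (v * κ)) = 0 := by
      have := bb_zero (K := K) hb.zero K' hK' (z * v)
      rw [← this]
      exact sum_congr rfl fun κ _ => by rw [mul_assoc]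
    rw [this]; simp)
  have h4 : ∑ w, (F w : ℚ) * (((bb K b w - bb K b (z * w) : ℤ) : ℚ) / 2) =
      ((Nat.card K * ∑ w, F w * b w : ℤ) : ℚ) := by
    rw [← h1]
    have h5 : ∑ w, (F w : ℚ) * (((bb K b w - bb K b (z * w) : ℤ) : ℚ) / 2) =
        ((∑ w, F w * (bb K b w - bb K b (z * w)) : ℤ) : ℚ) / 2 := by
      push_cast
      rw [sum_div]
      exact sum_congr rfl fun w _ => by ring
    rw [h5, h2]
    push_cast; ring
  rw [h4, ← Int.cast_abs, abs_mul] at h3
  have h5 : |(Nat.card K : ℤ)| * |∑ w, F w * b w| ≤ n := by exact_mod_cast h3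
  have h6 : 1 ≤ |∑ w, F w * b w| := Int.one_le_abs hb.ne
  rw [Nat.abs_cast] at h5
  have h7 : (0 : ℤ) ≤ Nat.card K := by positivity
  nlinarith

/-- **The key lemma, disjoint version.** -/
theorem key_disj (hI : Ind (K :: P)) (hz : z * z = 1) (hF : ∀ w, F (z * w) = - F w)
    (hrel : ∀ b : G → ℤ, Z0 (K :: P) b → ∑ w, F w * b w = 0) {n : ℤ}
    (hpair : ∀ b : G → ℚ, (∀ w, b (z * w) = - b w) → (∀ w, |b w| ≤ 1) →
      (∀ K' ∈ P, ∀ u, ∑ κ ∈ KF K', b (u * κ) = 0) → |∑ w, (F w : ℚ) * b w| ≤ n)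
    (hb : IsBox P u F b) (hdis : ∀ w, ∀ κ ∈ K, b w ≠ 0 → b (z * w * κ) = 0) :
    2 * (Nat.card K : ℤ) ≤ n := by
  have h1 := bb_sum hb.zero hrel
  have h2 := bb_odd hF (bb K b)
  have h3 := hpair (fun w => ((bb K b w - bb K b (z * w) : ℤ) : ℚ)) (by
    intro w
    rw [← mul_assoc, hz, one_mul]
    push_cast; ring) (by
    intro w
    have k1 := bb_le hI.1 hb w
    have k2 := bb_le hI.1 hb (z * w)
    have : |bb K b w - bb K b (z * w)| ≤ 1 := by
      by_cases h3 : bb K b w = 0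
      · rw [h3, zero_sub, abs_neg]; exact k2
      · by_cases h4 : bb K b (z * w) = 0
        · rw [h4, sub_zero]; exact k1
        · exfalso
          obtain ⟨κ, hκ, h5⟩ := bb_exists h3
          obtain ⟨κ', hκ', h6⟩ := bb_exists h4
          apply h6
          have h7 := hdis (w * κ) (κ⁻¹ * κ') (K.mul_mem (K.inv_mem hκ) hκ') h5
          have e : z * (w * κ) * (κ⁻¹ * κ') = z * w * κ' := by
            rw [← mul_assoc z, mul_assoc (z * w), mul_inv_cancel_left]
          rwa [e] at h7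
    rw [← Int.cast_abs]
    exact_mod_cast this) (by
    intro K' hK' v
    rw [← Int.cast_sum, sum_sub_distrib, bb_zero hb.zero K' hK' v]
    have : ∑ κ ∈ KF K', bb K b (z * (v * κ)) = 0 := by
      have := bb_zero (K := K) hb.zero K' hK' (z * v)
      rw [← this]
      exact sum_congr rfl fun κ _ => by rw [mul_assoc]
    rw [this]; simp)
  have h4 : ∑ w, (F w : ℚ) * ((bb K b w - bb K b (z * w) : ℤ) : ℚ) =
      ((2 * (Nat.card K * ∑ w, F w * b w) : ℤ) : ℚ) := by
    rw [← h1, ← h2]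
    push_cast
    rfl
  rw [h4, ← Int.cast_abs, abs_mul, abs_mul] at h3
  have h5 : |(2 : ℤ)| * (|(Nat.card K : ℤ)| * |∑ w, F w * b w|) ≤ n := by exact_mod_cast h3
  have h6 : 1 ≤ |∑ w, F w * b w| := Int.one_le_abs hb.ne
  rw [Nat.abs_cast, abs_of_pos (by norm_num : (0 : ℤ) < 2)] at h5
  have h7 : (0 : ℤ) ≤ Nat.card K := by positivity
  nlinarith

end Key

end Pool.Agent.Q59.PL
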