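import Pool.Agent.Q59.PL.Exo
import Pool.Agent.Q59.SX.Gen

/-!
# Peeling all large primes
-/

namespace Pool.Agent.Q59.PL

open Finset Pool.Agent.H916R2 Pool.Agent.Q59.FS Pool.Agent.Y2.Cv
open Pool.Agent.Q59.SX (sum_of_generated sum_level rel_level)

section Known

variable {m M k : ℕ} [NeZero m] [NeZero M] {Q : Type} [AddCommGroup Q] {C : ZMod m → Q}

lemma hb_level (h : k * M = m) (hb : ∀ s, SurfaceOrCurveProduct m s → (s.map C).sum = 0) :
    ∀ u, SurfaceOrCurveProduct M u → (u.map (fun b : ZMod M => C (iota k b))).sum = 0 := by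
  intro u hu
  have h1 : SurfaceOrCurveProduct m (u.map (iota k : ZMod M → ZMod m)) := by
    rcases hu with ⟨h1, h2⟩ | h1
    · exact Or.inl ⟨h1.iota h, by rw [Multiset.card_map]; exact h2⟩
    · exact Or.inr (h1.lift h)
  have h2 := hb _ h1
  rw [Multiset.map_map] at h2
  exact h2

/-- the good even levels are killed -/
theorem known_even (h : k * M = m) (hM : 2 ∣ M) (hgood : GoodDegree2 M) (hC : OddDist C)
    (hb : ∀ s, SurfaceOrCurveProduct m s → (s.map C).sum = 0) {s : Multiset (ZMod M)}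
    (hs : IsHodge M s) : (s.map (fun b => C (iota k b))).sum = 0 := by
  by_cases hne : s = 0
  · rw [hne]; simp
  · exact sum_of_generated (hC.comp_iota h) (hb_level h hb)
      (main2_even (Nat.pos_of_ne_zero (NeZero.ne M)) hM hgood s hs hne)

theorem kill_good (h : k * M = m) (hM : 2 ∣ M) (hgood : GoodDegree2 M) (hC : OddDist C)
    (hb : ∀ s, SurfaceOrCurveProduct m s → (s.map C).sum = 0) {z : ZMod m → ℤ}
    (hz : ∀ a, z a ≠ 0 → addOrderOf a ∣ M) (hR : Rel z) : ∑ a, z a • C a = 0 := by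
  rw [sum_level h hz]
  obtain ⟨s, hs, hsum⟩ := exists_hodge _ (rel_level h hz hR)
  rw [hsum Q _ (hC.comp_iota h)]
  exact known_even h hM hgood hC hb hs

theorem kill_good_od (h : k * M = m) (hM : 2 ∣ M) (hgood : GoodDegree2 M) (hC : OddDist C)
    (hb : ∀ s, SurfaceOrCurveProduct m s → (s.map C).sum = 0) {x : ZMod m → ℤ}
    (hz : ∀ a, od x a ≠ 0 → addOrderOf a ∣ M) (hR : Rel x) : ∑ a, x a • C a = 0 := by
  have hodx : ∀ a, od x a = od (posP (od x)) a := fun a => by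
    have : posP (od x) a - posP (od x) (-a) = od x a := posP_sub (od_neg x a)
    exact this.symm
  have hkill : ∀ (Q : Type) [AddCommGroup Q] (c : ZMod m → Q), OddDist c →
      ∑ a, posP (od x) a • c a = ∑ a, x a • c a := fun Q _ c hc => (od_kill hodx hc).symm
  rw [← hkill Q C hC]
  refine kill_good h hM hgood hC hb (fun a ha => hz a fun h0 => ha ?_) (rel_of_eq hR hkill)
  unfold posP
  rw [h0]
  rfl

/-- the exotic relations are killed -/
theorem kill_Tq {q R : ℕ} (hm2 : 2 ∣ m) (hq : q ∈ [11, 13, 17, 19]) (hR : R * (3 * q) = m)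
    (hC : OddDist C) (hb : ∀ s, SurfaceOrCurveProduct m s → (s.map C).sum = 0) :
    ∑ a, Tq m q a • C a = 0 := by
  have hq0 : 0 < 3 * q := by fin_cases hq <;> norm_num
  have : NeZero (3 * q) := ⟨hq0.ne'⟩
  have : NeZero (2 * (3 * q)) := ⟨by omega⟩
  have hRe : 2 ∣ R := by
    have h1 : 2 ∣ R * (3 * q) := by rw [hR]; exact hm2
    rcases Nat.prime_two.dvd_mul.mp h1 with h2 | h2
    · exact h2
    · exfalso
      fin_cases hq <;> omega
  obtain ⟨R', hR'⟩ := hRe
  have hk : R' * (2 * (3 * q)) = m := by rw [← hR, hR']; ring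
  refine kill_good_od (M := 2 * (3 * q)) hk (dvd_mul_right _ _) ?_ hC hb
    (fun a ha => (Tq_supp hq hR ha).trans (dvd_mul_left _ _)) (Tq_rel hq hR)
  have key : ∀ p : ℕ, p.Prime → p ∣ 2 * (3 * q) → p = 2 ∨ p = 3 ∨ p = q := by
    intro p hp hpd
    have hqp : q.Prime := by fin_cases hq <;> norm_num
    rcases hp.dvd_mul.mp hpd with h1 | h1
    · exact Or.inl ((Nat.prime_dvd_prime_iff_eq hp Nat.prime_two).mp h1)
    · rcases hp.dvd_mul.mp h1 with h1 | h1
      · exact Or.inr (Or.inl ((Nat.prime_dvd_prime_iff_eq hp Nat.prime_three).mp h1))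
      · exact Or.inr (Or.inr ((Nat.prime_dvd_prime_iff_eq hp hqp).mp h1))
  fin_cases hq
  · exact Or.inr (Or.inr (Or.inr (Or.inl key)))
  · exact Or.inr (Or.inr (Or.inr (Or.inr (Or.inl key))))
  · exact Or.inr (Or.inr (Or.inr (Or.inr (Or.inr (Or.inl ⟨by norm_num, Or.inr (Or.inl key)⟩)))))
  · exact Or.inr (Or.inr (Or.inr (Or.inr (Or.inr (Or.inl ⟨by norm_num, Or.inr (Or.inr key)⟩)))))

end Known

section Peel

variable {m : ℕ} [NeZero m] {Q : Type} [AddCommGroup Q] {C : ZMod m → Q}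

/-- the condition on the weight for the prime `q` -/
def Cd (m q : ℕ) (N : ℤ) : Prop :=
  N < (q : ℤ) - 1 ∨ (¬ 4 ∣ m ∧ N < 2 * ((q : ℤ) - 1) ∧ (¬ 3 ∣ m ∨ q ∈ [11, 13, 17, 19]))

lemma Cd.mono {q : ℕ} {N N' : ℤ} (h : Cd m q N) (hN : N' ≤ N) : Cd m q N' := by
  rcases h with h | ⟨h1, h2, h3⟩
  · exact Or.inl (by linarith)
  · exact Or.inr ⟨h1, by linarith, h3⟩

/-- no larger in the orders which are not powers of three -/
def Dom (y x : ZMod m → ℤ) : Prop :=
  ∀ p : ℕ, p.Prime → p ≠ 3 → ∀ a, p ∣ addOrderOf a → |od y a| ≤ |od x a|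

lemma Dom.trans {x y z : ZMod m → ℤ} (h : Dom z y) (h' : Dom y x) : Dom z x :=
  fun p hp hp3 a ha => (h p hp hp3 a ha).trans (h' p hp hp3 a ha)

lemma Dom.nq_le {x y : ZMod m → ℤ} (h : Dom y x) {q : ℕ} (hq : q.Prime) (hq3 : q ≠ 3) :
    nq q y ≤ nq q x := by
  unfold nq
  refine sum_le_sum fun a ha => ?_
  exact mul_le_mul_of_nonneg_left (h q hq hq3 a (mem_filter.mp ha).2) (wo_pos _).le

lemma Dom.of_off {x y : ZMod m → ℤ} {q : ℕ} (h1 : ∀ a, ¬ q ∣ addOrderOf a → od y a = od x a)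
    (h2 : ∀ a, q ∣ addOrderOf a → od y a = 0) : Dom y x := by
  intro p _ _ a _
  by_cases ha : q ∣ addOrderOf a
  · rw [h2 a ha, abs_zero]; exact abs_nonneg _
  · rw [h1 a ha]

lemma sum_eqv {q : ℕ} (hC : OddDist C) {x y : ZMod m → ℤ} (h : Eqv q y x) :
    ∑ a, y a • C a = ∑ a, x a • C a := h Q C (Part.of_oddDist q hC)

/-- one prime -/
theorem peel_one (hC : OddDist C) (hT : ∀ q ∈ [11, 13, 17, 19], 3 * q ∣ m →
    ∑ a, Tq m q a • C a = 0) {q : ℕ} (hq : q.Prime) (hq5 : 5 ≤ q) {x : ZMod m → ℤ} (hx : Rel x)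
    (hc : Cd m q (nq q x)) : ∃ y, Rel y ∧ ∑ a, x a • C a = ∑ a, y a • C a ∧
      (∀ a, q ∣ addOrderOf a → od y a = 0) ∧ Dom y x := by
  have hq2 : q ≠ 2 := by omega
  rcases hc with hc | ⟨h4, hc, h3 | h3⟩
  · obtain ⟨y, h1, h2, h3⟩ := peel_simple hq hq2 hx hc
    exact ⟨y, h1.rel hx, (sum_eqv hC h1).symm, h3, Dom.of_off h2 h3⟩
  · obtain ⟨y, h1, h2, h3⟩ := peel_no_three h4 h3 hq hq2 hx hc
    exact ⟨y, h1.rel hx, (sum_eqv hC h1).symm, h3, Dom.of_off h2 h3⟩
  · -- the exotic relation or zero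
    obtain ⟨T, hT1, hT2, hT3, hT4⟩ : ∃ T : ZMod m → ℤ, Rel T ∧
        (∀ a, od T a ≠ 0 → addOrderOf a ∣ 3 * q) ∧
        (∀ (R d : ℕ) [NeZero d], R * d = m → q * 3 = d → ∀ κ ∈ KL d 3, κ ≠ 1 →
          FF R d T 1 - FF R d T κ = 1) ∧ ∑ a, T a • C a = 0 := by
      by_cases h3q : 3 * q ∣ m
      · obtain ⟨R, hR⟩ := h3q
        have hR' : R * (3 * q) = m := by rw [hR]; ring
        exact ⟨Tq m q, Tq_rel h3 hR', fun a ha => Tq_supp h3 hR' ha,
          fun R d _ h1 h2 κ h4 h5 => Tq_key h3 R d h1 h2 κ h4 h5, hT q h3 ⟨R, hR⟩⟩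
      · refine ⟨fun _ => 0, ?_, ?_, ?_, ?_⟩
        · intro t
          simp
        · intro a ha
          exact absurd (by unfold od; ring) ha
        · intro R d _ h1 h2
          exfalso
          apply h3q
          rw [← h1, ← h2]
          exact ⟨R, by ring⟩
        · simp
    obtain ⟨v, -, -, y, h1, h2, h5⟩ := peel_three h4 hq hq5 hx hc hT1 hT2 hT3
    have hrel : Rel (fun a => x a - v * T a) := by
      intro t
      have e : ∑ a, (x a - v * T a) * saw ((t : ZMod m) * a) =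
          ∑ a, x a * saw ((t : ZMod m) * a) - v * ∑ a, T a * saw ((t : ZMod m) * a) := by
        rw [mul_sum, ← sum_sub_distrib]
        exact sum_congr rfl fun a _ => by ring
      change ∑ a, (x a - v * T a) * saw ((t : ZMod m) * a) = 0
      rw [e, hx t, hT1 t]; ring
    refine ⟨y, h1.rel hrel, ?_, h5, ?_⟩
    · rw [sum_eqv hC h1]
      simp only [sub_smul, sum_sub_distrib, mul_smul]
      rw [← smul_sum, hT4, smul_zero, sub_zero]
    · intro p hp hp3 a ha
      by_cases hqa : q ∣ addOrderOf a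
      · rw [h5 a hqa, abs_zero]; exact abs_nonneg _
      · have h6 : od T a = 0 := by
          by_contra h0
          have h7 := hT2 a h0
          rcases hp.dvd_mul.mp (ha.trans h7) with h8 | h8
          · exact hp3 ((Nat.prime_dvd_prime_iff_eq hp Nat.prime_three).mp h8)
          · rw [← (Nat.prime_dvd_prime_iff_eq hp hq).mp h8] at hqa
            exact hqa ha
        rw [h2 a hqa, h6, mul_zero, sub_zero]

/-- several primes -/
theorem peel_list (hC : OddDist C) (hT : ∀ q ∈ [11, 13, 17, 19], 3 * q ∣ m →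
    ∑ a, Tq m q a • C a = 0) : ∀ L : List ℕ, (∀ q ∈ L, q.Prime ∧ 5 ≤ q) → ∀ x : ZMod m → ℤ, Rel x →
      (∀ q ∈ L, Cd m q (nq q x)) → ∃ y, Rel y ∧ ∑ a, x a • C a = ∑ a, y a • C a ∧
        (∀ q ∈ L, ∀ a, q ∣ addOrderOf a → od y a = 0) ∧ Dom y x := by
  intro L
  induction L with
  | nil => exact fun _ x hx _ => ⟨x, hx, rfl, fun q hq => absurd hq List.not_mem_nil,
      fun _ _ _ _ _ => le_rfl⟩
  | cons q L ih =>
    intro hL x hx hc
    obtain ⟨hq, hq5⟩ := hL q (List.mem_cons_self ..)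
    obtain ⟨y, hy, hxy, hy0, hd⟩ := peel_one hC hT hq hq5 hx (hc q (List.mem_cons_self ..))
    obtain ⟨z, hz, hyz, hz0, hd'⟩ := ih (fun p hp => hL p (List.mem_cons_of_mem _ hp)) y hy
      (fun p hp => (hc p (List.mem_cons_of_mem _ hp)).mono
        (hd.nq_le (hL p (List.mem_cons_of_mem _ hp)).1 (by
          have := (hL p (List.mem_cons_of_mem _ hp)).2
          omega)))
    refine ⟨z, hz, hxy.trans hyz, fun p hp a ha => ?_, hd'.trans hd⟩
    rcases List.mem_cons.mp hp with rfl | hp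
    · have h1 := hd' p hq (by omega) a ha
      rw [hy0 a ha, abs_zero] at h1
      exact abs_nonpos_iff.mp h1
    · exact hz0 p hp a ha

/-- **Relations of even level with large primes.** -/
theorem kill_large {m1 m2 : ℕ} (h12 : m1 * m2 = m) (hm2 : 2 ∣ m1) (hgood : GoodDegree2 m1)
    (hC : OddDist C) (hb : ∀ s, SurfaceOrCurveProduct m s → (s.map C).sum = 0)
    {x : ZMod m → ℤ} (hx : Rel x)
    (hbig : ∀ q : ℕ, q.Prime → q ∣ m2 → 5 ≤ q ∧ Cd m q (nq q x)) : ∑ a, x a • C a = 0 := by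
  have hm0 := NeZero.ne m
  have hm20 : m2 ≠ 0 := by rintro rfl; rw [mul_zero] at h12; exact hm0 h12.symm
  have hm10 : m1 ≠ 0 := by rintro rfl; rw [zero_mul] at h12; exact hm0 h12.symm
  have : NeZero m1 := ⟨hm10⟩
  have hme : 2 ∣ m := hm2.trans (Dvd.intro _ h12)
  have hT : ∀ q ∈ [11, 13, 17, 19], 3 * q ∣ m → ∑ a, Tq m q a • C a = 0 := by
    rintro q hq ⟨R, hR⟩
    exact kill_Tq hme hq (R := R) (by rw [hR]; ring) hC hb
  obtain ⟨y, hy, hxy, hy0, -⟩ := peel_list hC hT m2.primeFactorsList (fun q hq => by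
      have h1 := (Nat.mem_primeFactorsList hm20).mp hq
      exact ⟨h1.1, (hbig q h1.1 h1.2).1⟩) x hx (fun q hq => by
      have h1 := (Nat.mem_primeFactorsList hm20).mp hq
      exact (hbig q h1.1 h1.2).2)
  rw [hxy]
  refine kill_good_od (M := m1) (k := m2) (by rw [mul_comm]; exact h12) hm2 hgood hC hb ?_ hy
  intro a ha
  have h1 : addOrderOf a ∣ m1 * m2 := by
    have := addOrderOf_dvd_card (x := a)
    rw [ZMod.card] at this
    rw [h12]; exact this
  refine Nat.Coprime.dvd_of_dvd_mul_right ?_ h1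
  refine Nat.coprime_of_dvd fun p hp hpa hp2 => ?_
  exact ha (hy0 p ((Nat.mem_primeFactorsList hm20).mpr ⟨hp, hp2⟩) a hpa)

end Peel

section Weight

/-- the weight of the entries of order divisible by `q` -/
noncomputable def wq (q : ℕ) {m : ℕ} (s : Multiset (ZMod m)) : ℤ :=
  (s.map fun a => if q ∣ addOrderOf a then wo (addOrderOf a) else 0).sum

variable {m : ℕ} [NeZero m]

lemma nq_count_le (q : ℕ) (s : Multiset (ZMod m)) :
    nq q (fun a : ZMod m => ((s.count a : ℕ) : ℤ)) ≤ 2 * wq q s := by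
  have h0 : wq q s = ∑ a : ZMod m, ((s.count a : ℕ) : ℤ) *
      (if q ∣ addOrderOf a then wo (addOrderOf a) else 0) := by
    unfold wq
    rw [← sum_count s (fun a : ZMod m => if q ∣ addOrderOf a then wo (addOrderOf a) else 0)]
    exact sum_congr rfl fun a _ => by rw [smul_eq_mul]
  have h1 : wq q s = ∑ a : ZMod m, ((s.count (-a) : ℕ) : ℤ) *
      (if q ∣ addOrderOf a then wo (addOrderOf a) else 0) := by
    rw [h0]
    refine Fintype.sum_equiv (Equiv.neg _) _ _ fun a => ?_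
    simp only [Equiv.neg_apply, neg_neg]
    rw [addOrderOf_neg]
  unfold nq
  rw [sum_filter, two_mul]
  nth_rewrite 1 [h0]
  rw [h1, ← sum_add_distrib]
  refine sum_le_sum fun a _ => ?_
  split_ifs with h
  · rw [← add_mul, mul_comm]
    refine mul_le_mul_of_nonneg_right ?_ (wo_pos _).le
    unfold od
    have := abs_sub ((s.count a : ℕ) : ℤ) ((s.count (-a) : ℕ) : ℤ)
    rwa [abs_of_nonneg (by positivity : (0 : ℤ) ≤ ((s.count a : ℕ) : ℤ)),
      abs_of_nonneg (by positivity : (0 : ℤ) ≤ ((s.count (-a) : ℕ) : ℤ))] at this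
  · simp

/-- the condition for a character -/
def Cond (m q : ℕ) (N : ℤ) : Prop :=
  5 ≤ q ∧ (2 * N < (q : ℤ) - 1 ∨
    (¬ 4 ∣ m ∧ N < (q : ℤ) - 1 ∧ (¬ 3 ∣ m ∨ q = 11 ∨ q = 13 ∨ q = 17 ∨ q = 19)))

/-- **Even degrees.** -/
theorem main_even {m1 m2 : ℕ} (h12 : m1 * m2 = m) (hm2 : 2 ∣ m1) (hgood : GoodDegree2 m1)
    {s : Multiset (ZMod m)} (hs : IsHodge m s) (hne : s ≠ 0)
    (hbig : ∀ q : ℕ, q.Prime → q ∣ m2 → Cond m q (wq q s)) :
    Generated m (SurfaceOrCurveProduct m) s := by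
  have h1 := kill_large (C := cQ m (SurfaceOrCurveProduct m)) h12 hm2 hgood cQ_oddDist
    (fun u hu => cQ_sum_eq_zero (Generated.ofBase u hu)) hs.rel (fun q hq hqm => by
      obtain ⟨h5, h6⟩ := hbig q hq hqm
      refine ⟨h5, ?_⟩
      have h7 := nq_count_le q s
      rcases h6 with h6 | ⟨h6, h8, h9⟩
      · exact Or.inl (by linarith)
      · refine Or.inr ⟨h6, by linarith, ?_⟩
        rcases h9 with h9 | h9
        · exact Or.inl h9
        · right
          simpa using h9)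
  rw [sum_count] at h1
  rw [cQ_sum, QuotientAddGroup.eq_zero_iff] at h1
  exact generated_of_mem_LL base_good base_neg hs.1 hs.2.1 hne h1

end Weight

end Pool.Agent.Q59.PL
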