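import Pool.Agent.Q59.PL.Three

/-!
# The exotic relations of the levels 33, 39, 51, 57
-/

namespace Pool.Agent.Q59.PL

open Finset Pool.Agent.H916R2 Pool.Agent.Q59.FS

/-- the exotic characters -/
def tau (q : ℕ) : List ℕ :=
  if q = 11 then [1, 25, 4, 16, 31, 22]
  else if q = 13 then [1, 16, 22, 28, 19, 31]
  else if q = 17 then [1, 37, 43, 10, 13, 22, 49, 28, 18, 34]
  else [1, 22, 28, 46, 43, 34, 7, 40, 25, 39]

/-- the conditions on a list of natural numbers -/
def Chk (q : ℕ) : Prop :=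
  (∀ a ∈ tau q, a % (3 * q) ≠ 0) ∧ (tau q).length % 2 = 0 ∧ (tau q).sum % (3 * q) = 0 ∧
    (∀ t ∈ List.range (3 * q), t % 3 ≠ 0 → t % q ≠ 0 →
      2 * ((tau q).map fun a => (t * a) % (3 * q)).sum = 3 * q * (tau q).length) ∧
    (∀ κ ∈ List.range (3 * q), (3 * κ) % (3 * q) = 3 → κ % 3 ≠ 0 → κ ≠ 1 →
      (tau q).count κ = 0 ∧ (tau q).count (3 * q - κ) = 0) ∧
    (tau q).count 1 = 1 ∧ (tau q).count (3 * q - 1) = 0 ∧ (∀ a ∈ tau q, a < 3 * q)

instance (q : ℕ) : Decidable (Chk q) := by unfold Chk; infer_instance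

lemma chk : ∀ q ∈ [11, 13, 17, 19], Chk q := by decide +kernel

/-- as a multiset of residues -/
def tauM (q n : ℕ) : Multiset (ZMod n) := ((tau q).map (fun a : ℕ => (a : ZMod n)) : List (ZMod n))

lemma tau_hodge {q : ℕ} (hq : q ∈ [11, 13, 17, 19]) : IsHodge (3 * q) (tauM q (3 * q)) := by
  obtain ⟨h1, h2, h3, h4, -⟩ := chk q hq
  have hq0 : 0 < q := by
    fin_cases hq <;> norm_num
  have : NeZero (3 * q) := ⟨by omega⟩
  refine ⟨?_, ?_, ?_, ?_⟩
  · intro h0
    simp only [tauM, Multiset.mem_coe, List.mem_map] at h0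
    obtain ⟨a, ha, h0⟩ := h0
    rw [ZMod.natCast_eq_zero_iff] at h0
    exact h1 a ha (Nat.mod_eq_zero_of_dvd h0)
  · rw [tauM, Multiset.coe_card, List.length_map]
    exact Nat.even_iff.mpr h2
  · rw [tauM, Multiset.sum_coe]
    have h5 : ((tau q).map (fun a : ℕ => (a : ZMod (3 * q)))).sum = (((tau q).sum : ℕ) : ZMod (3 * q)) := by
      rw [Nat.cast_list_sum]
    rw [h5, ZMod.natCast_eq_zero_iff]
    exact Nat.dvd_of_mod_eq_zero h3
  · intro t
    have hco := ZMod.val_coe_unit_coprime t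
    have hlt := ZMod.val_lt (t : ZMod (3 * q))
    have h5 := h4 (t : ZMod (3 * q)).val (List.mem_range.mpr hlt) (by
      intro h0
      have h6 : 3 ∣ Nat.gcd (t : ZMod (3 * q)).val (3 * q) :=
        Nat.dvd_gcd (Nat.dvd_of_mod_eq_zero h0) (Dvd.intro _ rfl)
      rw [hco] at h6
      omega) (by
      intro h0
      have h6 : q ∣ Nat.gcd (t : ZMod (3 * q)).val (3 * q) :=
        Nat.dvd_gcd (Nat.dvd_of_mod_eq_zero h0) (Dvd.intro_left _ rfl)
      rw [hco, Nat.dvd_one] at h6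
      fin_cases hq <;> simp at h6)
    rw [tauM, Multiset.map_coe, Multiset.sum_coe, List.map_map, Multiset.coe_card, List.length_map]
    rw [← h5]
    congr 2
    refine List.map_congr_left fun a _ => ?_
    simp only [Function.comp_apply]
    have e : (t : ZMod (3 * q)) * (a : ZMod (3 * q)) =
        (((t : ZMod (3 * q)).val * a : ℕ) : ZMod (3 * q)) := by
      push_cast
      rw [ZMod.natCast_zmod_val]
    rw [e, ZMod.val_natCast]

lemma count_tau {q : ℕ} (hq : q ∈ [11, 13, 17, 19]) [NeZero (3 * q)] (z : ZMod (3 * q)) :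
    (tauM q (3 * q)).count z = (tau q).count z.val := by
  obtain ⟨-, -, -, -, -, -, -, h8⟩ := chk q hq
  unfold tauM
  rw [Multiset.coe_count]
  have h1 : ∀ L : List ℕ, (∀ a ∈ L, a < 3 * q) →
      (L.map (fun a : ℕ => (a : ZMod (3 * q)))).count z = L.count z.val := by
    intro L
    induction L with
    | nil => intro _; rfl
    | cons a L ih =>
      intro hL
      rw [List.map_cons, List.count_cons, List.count_cons, ih fun b hb => hL b (List.mem_cons_of_mem _ hb)]
      have ha := hL a (List.mem_cons_self ..)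
      congr 1
      have : ((a : ZMod (3 * q)) == z) = (a == z.val) := by
        rw [Bool.eq_iff_iff, beq_iff_eq, beq_iff_eq]
        constructor
        · rintro rfl
          rw [ZMod.val_natCast, Nat.mod_eq_of_lt ha]
        · intro h
          rw [h, ZMod.natCast_zmod_val]
      rw [this]
  exact h1 _ h8

section T

variable {m : ℕ} [NeZero m]

/-- the exotic relation as a function -/
noncomputable def Tq (m q : ℕ) (a : ZMod m) : ℤ :=
  (((tauM q (3 * q)).map (iota (m / (3 * q)) : ZMod (3 * q) → ZMod m)).count a : ℕ)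

lemma Tq_sum {q : ℕ} {Q : Type*} [AddCommGroup Q] (c : ZMod m → Q) :
    ∑ a, Tq m q a • c a = ((tauM q (3 * q)).map fun b => c (iota (m / (3 * q)) b)).sum := by
  unfold Tq
  rw [sum_count, Multiset.map_map]
  rfl

lemma Tq_hodge {q : ℕ} (hq : q ∈ [11, 13, 17, 19]) {R : ℕ} (hR : R * (3 * q) = m) :
    IsHodge m ((tauM q (3 * q)).map (iota (m / (3 * q)) : ZMod (3 * q) → ZMod m)) := by
  have hq0 : 0 < 3 * q := by
    fin_cases hq <;> norm_num
  have : NeZero (3 * q) := ⟨hq0.ne'⟩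
  have e : m / (3 * q) = R := by rw [← hR]; exact Nat.mul_div_cancel _ hq0
  rw [e]
  exact (tau_hodge hq).iota hR

lemma Tq_rel {q : ℕ} (hq : q ∈ [11, 13, 17, 19]) {R : ℕ} (hR : R * (3 * q) = m) :
    Rel (Tq m q) := (Tq_hodge hq hR).rel

lemma Tq_supp {q : ℕ} (hq : q ∈ [11, 13, 17, 19]) {R : ℕ} (hR : R * (3 * q) = m) {a : ZMod m}
    (ha : od (Tq m q) a ≠ 0) : addOrderOf a ∣ 3 * q := by
  have hq0 : 0 < 3 * q := by
    fin_cases hq <;> norm_num
  have : NeZero (3 * q) := ⟨hq0.ne'⟩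
  have e : m / (3 * q) = R := by rw [← hR]; exact Nat.mul_div_cancel _ hq0
  have key : ∀ b : ZMod m, Tq m q b ≠ 0 → addOrderOf b ∣ 3 * q := by
    intro b hb
    have h1 : b ∈ (tauM q (3 * q)).map (iota (m / (3 * q)) : ZMod (3 * q) → ZMod m) := by
      rw [← Multiset.count_pos]
      unfold Tq at hb
      exact Nat.pos_of_ne_zero (by exact_mod_cast hb)
    obtain ⟨z, _, rfl⟩ := Multiset.mem_map.mp h1
    rw [e, addOrderOf_dvd_iff_nsmul_eq_zero, nsmul_eq_mul]
    have h2 : ((3 * q : ℕ) : ZMod m) * iota R z = ((3 * q * (R * z.val) : ℕ) : ZMod m) := by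
      unfold iota
      push_cast; ring
    rw [h2, ZMod.natCast_eq_zero_iff]
    exact ⟨z.val, by rw [← hR]; ring⟩
  by_contra hcon
  apply ha
  have h1 : Tq m q a = 0 := by
    by_contra h
    exact hcon (key a h)
  have h2 : Tq m q (-a) = 0 := by
    by_contra h
    have := key _ h
    rw [addOrderOf_neg] at this
    exact hcon this
  unfold od
  rw [h1, h2, sub_zero]

lemma Tq_iota {q : ℕ} (hq : q ∈ [11, 13, 17, 19]) {R : ℕ} [NeZero (3 * q)]
    (hR : R * (3 * q) = m) (z : ZMod (3 * q)) : Tq m q (iota R z) = (tau q).count z.val := by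
  have hq0 : 0 < 3 * q := by
    fin_cases hq <;> norm_num
  have e : m / (3 * q) = R := by rw [← hR]; exact Nat.mul_div_cancel _ hq0
  unfold Tq
  rw [e, Multiset.count_map_eq_count' _ _ (fun _ _ hab => iota_inj hR hab), count_tau hq]

theorem Tq_key {q : ℕ} (hq : q ∈ [11, 13, 17, 19]) (R d : ℕ) [NeZero d] (hR : R * d = m)
    (hd : q * 3 = d) (κ : (ZMod d)ˣ) (hκ : κ ∈ KL d 3) (hκ1 : κ ≠ 1) :
    FF R d (Tq m q) 1 - FF R d (Tq m q) κ = 1 := by
  have hd' : d = 3 * q := by rw [← hd]; ring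
  subst hd'
  obtain ⟨-, -, -, -, h5, h6, h7, -⟩ := chk q hq
  have h33 : 33 ≤ 3 * q := by
    fin_cases hq <;> norm_num
  have : Fact (1 < 3 * q) := ⟨by omega⟩
  have hF : ∀ u : (ZMod (3 * q))ˣ, FF R (3 * q) (Tq m q) u =
      ((tau q).count (u : ZMod (3 * q)).val : ℤ) -
        (tau q).count (3 * q - (u : ZMod (3 * q)).val) := by
    intro u
    have hu0 : (u : ZMod (3 * q)) ≠ 0 := u.ne_zero
    unfold FF od
    rw [← iota_neg hR, Tq_iota hq hR, Tq_iota hq hR, ZMod.neg_val, if_neg hu0]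
  have hκv := ZMod.val_lt (κ : ZMod (3 * q))
  have h8 := h5 (κ : ZMod (3 * q)).val (List.mem_range.mpr hκv) (by
      rw [mem_KL] at hκ
      have h9 : ((3 * (κ : ZMod (3 * q)).val : ℕ) : ZMod (3 * q)) = ((3 : ℕ) : ZMod (3 * q)) := by
        push_cast
        rw [ZMod.natCast_zmod_val]
        exact_mod_cast hκ
      rw [ZMod.natCast_eq_natCast_iff'] at h9
      rw [h9]
      exact Nat.mod_eq_of_lt (by omega)) (by
      intro h0
      have h9 : 3 ∣ Nat.gcd (κ : ZMod (3 * q)).val (3 * q) :=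
        Nat.dvd_gcd (Nat.dvd_of_mod_eq_zero h0) (Dvd.intro _ rfl)
      rw [ZMod.val_coe_unit_coprime κ] at h9
      omega) (by
      intro h0
      apply hκ1
      apply Units.ext
      rw [Units.val_one, ← ZMod.natCast_zmod_val (κ : ZMod (3 * q)), h0, Nat.cast_one])
  rw [hF, hF, h8.1, h8.2, Units.val_one, ZMod.val_one, h6, h7]
  norm_num

end T

end Pool.Agent.Q59.PL
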