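import Pool.Agent.Q59.FS.Main

/-!
# Bounded extension of partial odd distributions without the relations of one prime
-/

namespace Pool.Agent.Q59.PL

open Finset Pool.Agent.H916R2 Pool.Agent.Q59.FS

/-- odd functions with the distribution relations of all primes but `q` -/
structure Part {m : ℕ} (q : ℕ) {Q : Type*} [AddCommGroup Q] (c : ZMod m → Q) : Prop where
  neg : ∀ a, c (-a) = - c a
  half : ∀ a, a + a = 0 → c a = 0
  dist : ∀ p d : ℕ, p.Prime → p ≠ q → p * d = m → ∀ a,
    ∑ i ∈ range p, c (a + (i : ZMod m) * (d : ZMod m)) = c ((p : ZMod m) * a)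

lemma Part.of_oddDist {m : ℕ} (q : ℕ) {Q : Type*} [AddCommGroup Q] {c : ZMod m → Q}
    (h : OddDist c) : Part q c := ⟨h.neg, h.half, fun p d hp _ hpd => h.dist p d hp hpd⟩

/-- partial odd distributions on the `M`-torsion, supported on orders divisible by `D`, without the
relations of `q`, bounded -/
structure PB {m : ℕ} (q M D : ℕ) (φ : ZMod m → ℚ) : Prop where
  neg : ∀ a, φ (-a) = - φ a
  supp : ∀ a, φ a ≠ 0 → (M : ZMod m) * a = 0
  ord : ∀ a, φ a ≠ 0 → D ∣ addOrderOf a
  bd : ∀ a, |φ a| ≤ (wo (addOrderOf a) : ℚ)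
  dist : ∀ p e : ℕ, p.Prime → p ≠ q → p * e = m → p ∣ M → ∀ a, (M : ZMod m) * a = 0 →
    ∑ i ∈ range p, φ (a + (i : ZMod m) * (e : ZMod m)) = φ ((p : ZMod m) * a)

lemma wo_one_le (n : ℕ) : (1 : ℚ) ≤ (wo n : ℚ) := by
  have : 1 ≤ wo n := by unfold wo; split_ifs <;> norm_num
  exact_mod_cast this

lemma wo_two_ge (n : ℕ) : (wo n : ℚ) ≤ 2 := by exact_mod_cast wo_le n

lemma wo_of_dvd {n n1 ℓ : ℕ} (hℓ : Odd ℓ) (hn0 : 0 < n) (h1 : n1 ∣ n) (h2 : n ∣ ℓ * (ℓ * n1)) :
    wo n1 ≤ wo n := by
  obtain ⟨k, hk⟩ := h1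
  have hn1 : 0 < n1 := Nat.pos_of_ne_zero (by rintro rfl; omega)
  have hkodd : Odd k := by
    have h3 : n1 * k ∣ n1 * (ℓ * ℓ) := by
      rw [← hk]
      have : n1 * (ℓ * ℓ) = ℓ * (ℓ * n1) := by ring
      rw [this]; exact h2
    have h4 := Nat.dvd_of_mul_dvd_mul_left hn1 h3
    exact Odd.of_dvd_nat (hℓ.mul hℓ) h4
  unfold wo
  obtain ⟨j, hj⟩ := hkodd
  by_cases h : n1 % 4 = 2
  · have : n % 4 = 2 := by
      rw [hk, hj]
      obtain ⟨i, hi⟩ : ∃ i, n1 = 4 * i + 2 := ⟨n1 / 4, by omega⟩
      rw [hi]
      have : (4 * i + 2) * (2 * j + 1) = 4 * (2 * i * j + i + j) + 2 := by ring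
      rw [this]; omega
    rw [if_pos h, if_pos this]
  · rw [if_neg h]
    split_ifs <;> norm_num

variable {m : ℕ} [NeZero m] {q M D : ℕ} {φ : ZMod m → ℚ}

/-- extension, first case -/
lemma PB.ext_dvd (h : PB q M D φ) {ℓ : ℕ} (hℓ : ℓ.Prime) (hdvd : ℓ ∣ M) :
    ∃ φ' : ZMod m → ℚ, PB q (M * ℓ) D φ' ∧ ∀ a, (M : ZMod m) * a = 0 → φ' a = φ a := by
  classical
  set φ' : ZMod m → ℚ := fun a => if (M : ZMod m) * a = 0 then φ a else
    if ((M * ℓ : ℕ) : ZMod m) * a = 0 then φ ((ℓ : ZMod m) * a) / ℓ else 0 with hφ'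
  have v1 : ∀ a, (M : ZMod m) * a = 0 → φ' a = φ a := fun a ha => by
    simp only [hφ']; rw [if_pos ha]
  have v2 : ∀ a, ¬ (M : ZMod m) * a = 0 → ((M * ℓ : ℕ) : ZMod m) * a = 0 →
      φ' a = φ ((ℓ : ZMod m) * a) / ℓ := fun a h1 h2 => by
    simp only [hφ']; rw [if_neg h1, if_pos h2]
  have v3 : ∀ a, ¬ ((M * ℓ : ℕ) : ZMod m) * a = 0 → φ' a = 0 := fun a h2 => by
    have h1 : ¬ (M : ZMod m) * a = 0 := fun h0 => h2 (by
      push_cast
      linear_combination (ℓ : ZMod m) * h0)
    simp only [hφ']; rw [if_neg h1, if_neg h2]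
  have hℓ0 : (ℓ : ℚ) ≠ 0 := by exact_mod_cast hℓ.ne_zero
  refine ⟨φ', ⟨?_, ?_, ?_, ?_, ?_⟩, v1⟩
  · intro a
    by_cases h1 : (M : ZMod m) * a = 0
    · rw [v1 a h1, v1 (-a) (by rw [mul_neg, h1, neg_zero]), h.neg]
    · have h1' : ¬ (M : ZMod m) * (-a) = 0 := by rwa [mul_neg, neg_eq_zero]
      by_cases h2 : ((M * ℓ : ℕ) : ZMod m) * a = 0
      · rw [v2 a h1 h2, v2 (-a) h1' (by rw [mul_neg, h2, neg_zero]), mul_neg, h.neg, neg_div]
      · rw [v3 a h2, v3 (-a) (by rwa [mul_neg, neg_eq_zero]), neg_zero]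
  · intro a ha
    by_contra hcon
    exact ha (v3 a hcon)
  · intro a ha
    by_cases h1 : (M : ZMod m) * a = 0
    · rw [v1 a h1] at ha
      exact h.ord a ha
    · by_cases h2 : ((M * ℓ : ℕ) : ZMod m) * a = 0
      · rw [v2 a h1 h2] at ha
        have h3 : φ ((ℓ : ZMod m) * a) ≠ 0 := fun h0 => ha (by rw [h0, zero_div])
        exact (h.ord _ h3).trans (order_mul_dvd ℓ a)
      · exact absurd (v3 a h2) ha
  · intro a
    by_cases h1 : (M : ZMod m) * a = 0
    · rw [v1 a h1]; exact h.bd a
    · have h0 := wo_one_le (addOrderOf a)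
      by_cases h2 : ((M * ℓ : ℕ) : ZMod m) * a = 0
      · rw [v2 a h1 h2, abs_div, Nat.abs_cast]
        have h3 := (h.bd ((ℓ : ZMod m) * a)).trans (wo_two_ge _)
        have h4 : (2 : ℚ) ≤ ℓ := by exact_mod_cast hℓ.two_le
        have h5 : |φ ((ℓ : ZMod m) * a)| / ℓ ≤ 1 := by
          rw [div_le_one (by linarith)]; linarith
        linarith
      · rw [v3 a h2, abs_zero]; linarith
  · intro p e hp hpq hpe hpM a ha
    have hpM' : p ∣ M := by
      rcases (Nat.Prime.dvd_mul hp).mp hpM with h0 | h0
      · exact h0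
      · exact ((Nat.prime_dvd_prime_iff_eq hp hℓ).mp h0) ▸ hdvd
    have hMe : (M : ZMod m) * (e : ZMod m) = 0 := dvd_mul_zero hpe hpM'
    have hshift : ∀ i : ℕ, (M : ZMod m) * (a + (i : ZMod m) * (e : ZMod m)) = (M : ZMod m) * a := by
      intro i
      linear_combination (i : ZMod m) * hMe
    by_cases h1 : (M : ZMod m) * a = 0
    · rw [v1 ((p : ZMod m) * a) (by linear_combination (p : ZMod m) * h1),
        ← h.dist p e hp hpq hpe hpM' a h1]
      exact sum_congr rfl fun i _ => v1 _ (by rw [hshift, h1])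
    · have ht : ∀ i ∈ range p, φ' (a + (i : ZMod m) * (e : ZMod m)) =
          φ ((ℓ : ZMod m) * (a + (i : ZMod m) * (e : ZMod m))) / ℓ := by
        intro i _
        refine v2 _ (by rw [hshift]; exact h1) ?_
        have h0 : ((M * ℓ : ℕ) : ZMod m) * (a + (i : ZMod m) * (e : ZMod m)) =
            ((M * ℓ : ℕ) : ZMod m) * a := by
          push_cast
          linear_combination ((i : ZMod m) * ℓ) * hMe
        rw [h0, ha]
      rw [sum_congr rfl ht, ← sum_div]
      have hMℓa : (M : ZMod m) * ((ℓ : ZMod m) * a) = 0 := by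
        have := ha
        push_cast at this
        linear_combination this
      by_cases hpl : p = ℓ
      · subst hpl
        have hc : ∀ i ∈ range p, φ ((p : ZMod m) * (a + (i : ZMod m) * (e : ZMod m))) =
            φ ((p : ZMod m) * a) := by
          intro i _
          congr 1
          linear_combination (i : ZMod m) * mul_cast_zero hpe
        rw [sum_congr rfl hc, sum_const, card_range, nsmul_eq_mul, mul_div_cancel_left₀ _ hℓ0,
          v1 _ hMℓa]
      · have hcop : ℓ.Coprime p := (Nat.coprime_primes hℓ hp).mpr (Ne.symm hpl)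
        have h3 : ∑ i ∈ range p, φ ((ℓ : ZMod m) * (a + (i : ZMod m) * (e : ZMod m))) =
            φ ((p : ZMod m) * ((ℓ : ZMod m) * a)) := by
          rw [← h.dist p e hp hpq hpe hpM' _ hMℓa, ← coset_sum_coprime φ hpe hcop]
          exact sum_congr rfl fun i _ => by rw [mul_add]
        have h4 : ¬ (M : ZMod m) * ((p : ZMod m) * a) = 0 := by
          intro h0
          apply h1
          have hA : ((M * ℓ : ℕ) : ZMod m) * a = 0 := ha
          have hB : ((M * p : ℕ) : ZMod m) * a = 0 := by
            push_cast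
            linear_combination h0
          have := killed_gcd hA hB
          rwa [Nat.gcd_mul_left, hcop.gcd_eq_one, mul_one] at this
        rw [h3, v2 _ h4 (by
          have := ha
          push_cast at this ⊢
          linear_combination (p : ZMod m) * this)]
        congr 2
        ring

/-- extension, second case -/
lemma PB.ext_not_dvd (h : PB q M D φ) {ℓ : ℕ} (hℓ : ℓ.Prime) (hdvd : ¬ ℓ ∣ M) :
    ∃ φ' : ZMod m → ℚ, PB q (M * ℓ) D φ' ∧ ∀ a, (M : ZMod m) * a = 0 → φ' a = φ a := by
  classical
  have hM0 : M ≠ 0 := by rintro rfl; simp at hdvd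
  have hcopM : M.Coprime ℓ := Nat.coprime_comm.mp ((Nat.Prime.coprime_iff_not_dvd hℓ).mpr hdvd)
  obtain ⟨e0, he1, he2⟩ : ∃ e0 : ℕ, e0 ≡ 1 [MOD M] ∧ e0 ≡ 0 [MOD ℓ] :=
    ⟨_, (Nat.chineseRemainder hcopM 1 0).2⟩
  have he2' : ℓ ∣ e0 := (Nat.modEq_zero_iff_dvd).mp he2
  have hmul : ∀ b : ZMod m, (M : ZMod m) * b = 0 → (e0 : ZMod m) * b = b := by
    intro b hb
    have h1 : (M : ℤ) ∣ (1 : ℤ) - e0 := by
      have := (Nat.modEq_iff_dvd).mp he1
      exact_mod_cast this
    obtain ⟨k, hk⟩ := h1
    have h2 : (1 : ZMod m) - (e0 : ZMod m) = (M : ZMod m) * (k : ZMod m) := by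
      have := congrArg (fun z : ℤ => (z : ZMod m)) hk
      push_cast at this
      exact this
    linear_combination -b * h2 - (k : ZMod m) * hb
  set φ' : ZMod m → ℚ := fun a => if (M : ZMod m) * a = 0 then φ a else
    if ((M * ℓ : ℕ) : ZMod m) * a = 0 then
      (φ ((ℓ : ZMod m) * ((e0 : ZMod m) * a)) - φ ((e0 : ZMod m) * a)) / (ℓ - 1) else 0 with hφ'
  have v1 : ∀ a, (M : ZMod m) * a = 0 → φ' a = φ a := fun a ha => by
    simp only [hφ']; rw [if_pos ha]
  have v2 : ∀ a, ¬ (M : ZMod m) * a = 0 → ((M * ℓ : ℕ) : ZMod m) * a = 0 →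
      φ' a = (φ ((ℓ : ZMod m) * ((e0 : ZMod m) * a)) - φ ((e0 : ZMod m) * a)) / (ℓ - 1) :=
    fun a h1 h2 => by simp only [hφ']; rw [if_neg h1, if_pos h2]
  have v3 : ∀ a, ¬ ((M * ℓ : ℕ) : ZMod m) * a = 0 → φ' a = 0 := fun a h2 => by
    have h1 : ¬ (M : ZMod m) * a = 0 := fun h0 => h2 (by
      push_cast
      linear_combination (ℓ : ZMod m) * h0)
    simp only [hφ']; rw [if_neg h1, if_neg h2]
  have hℓ1 : (ℓ : ℚ) - 1 ≠ 0 := by
    have : (1 : ℚ) < ℓ := by exact_mod_cast hℓ.one_lt
    linarith
  refine ⟨φ', ⟨?_, ?_, ?_, ?_, ?_⟩, v1⟩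
  · intro a
    by_cases h1 : (M : ZMod m) * a = 0
    · rw [v1 a h1, v1 (-a) (by rw [mul_neg, h1, neg_zero]), h.neg]
    · have h1' : ¬ (M : ZMod m) * (-a) = 0 := by rwa [mul_neg, neg_eq_zero]
      by_cases h2 : ((M * ℓ : ℕ) : ZMod m) * a = 0
      · rw [v2 a h1 h2, v2 (-a) h1' (by rw [mul_neg, h2, neg_zero]), mul_neg, mul_neg, h.neg,
          h.neg]
        ring
      · rw [v3 a h2, v3 (-a) (by rwa [mul_neg, neg_eq_zero]), neg_zero]
  · intro a ha
    by_contra hcon
    exact ha (v3 a hcon)
  · intro a ha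
    by_cases h1 : (M : ZMod m) * a = 0
    · rw [v1 a h1] at ha
      exact h.ord a ha
    · by_cases h2 : ((M * ℓ : ℕ) : ZMod m) * a = 0
      · rw [v2 a h1 h2] at ha
        by_cases h3 : φ ((e0 : ZMod m) * a) = 0
        · have h4 : φ ((ℓ : ZMod m) * ((e0 : ZMod m) * a)) ≠ 0 := by
            intro h0
            apply ha
            rw [h0, h3, sub_zero, zero_div]
          exact (h.ord _ h4).trans ((order_mul_dvd ℓ _).trans (order_mul_dvd e0 a))
        · exact (h.ord _ h3).trans (order_mul_dvd e0 a)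
      · exact absurd (v3 a h2) ha
  · intro a
    by_cases h1 : (M : ZMod m) * a = 0
    · rw [v1 a h1]; exact h.bd a
    · have h0 := wo_one_le (addOrderOf a)
      by_cases h2 : ((M * ℓ : ℕ) : ZMod m) * a = 0
      · rw [v2 a h1 h2]
        have hℓ2 : (2 : ℚ) ≤ ℓ := by exact_mod_cast hℓ.two_le
        have hpos : (0 : ℚ) < (ℓ : ℚ) - 1 := by linarith
        rw [abs_div, abs_of_pos hpos, div_le_iff₀ hpos]
        have h3 := h.bd ((ℓ : ZMod m) * ((e0 : ZMod m) * a))
        have h4 := h.bd ((e0 : ZMod m) * a)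
        have h5 := abs_sub (φ ((ℓ : ZMod m) * ((e0 : ZMod m) * a))) (φ ((e0 : ZMod m) * a))
        have hℓa : (M : ZMod m) * ((ℓ : ZMod m) * a) = 0 := by
          have := h2
          push_cast at this
          linear_combination this
        have he0a : (M : ZMod m) * ((e0 : ZMod m) * a) = 0 := by
          obtain ⟨k, hk⟩ := he2'
          rw [hk]
          push_cast
          linear_combination (k : ZMod m) * hℓa
        by_cases hℓ2' : ℓ = 2
        · subst hℓ2'
          have hModd : M % 2 = 1 := by omega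
          have hw : ∀ b : ZMod m, (M : ZMod m) * b = 0 → wo (addOrderOf b) = 1 := by
            intro b hb
            have h6 : addOrderOf b ∣ M := by
              rw [addOrderOf_dvd_iff_nsmul_eq_zero, nsmul_eq_mul]; exact hb
            unfold wo
            rw [if_neg]
            intro h7
            have h8 : 2 ∣ M := (show 2 ∣ addOrderOf b by omega).trans h6
            omega
          have hwa : wo (addOrderOf a) = 2 := by
            have h6 : addOrderOf a ∣ M * 2 := by
              rw [addOrderOf_dvd_iff_nsmul_eq_zero, nsmul_eq_mul]; exact h2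
            have h7 : ¬ addOrderOf a ∣ M := by
              rw [addOrderOf_dvd_iff_nsmul_eq_zero, nsmul_eq_mul]; exact h1
            have h8 : 2 ∣ addOrderOf a := by
              by_contra h9
              apply h7
              have h10 : (addOrderOf a).Coprime 2 :=
                Nat.coprime_comm.mp ((Nat.Prime.coprime_iff_not_dvd Nat.prime_two).mpr h9)
              exact h10.dvd_of_dvd_mul_right h6
            have h9 : ¬ 4 ∣ addOrderOf a := by
              intro h10
              have h11 := h10.trans h6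
              omega
            unfold wo
            rw [if_pos (by omega)]
          rw [hw _ (by linear_combination (2 : ZMod m) * he0a)] at h3
          rw [hw _ he0a] at h4
          rw [hwa]
          push_cast at h3 h4 h5 ⊢
          linarith
        · have hodd : Odd ℓ := hℓ.odd_of_ne_two hℓ2'
          have hℓ3 : (3 : ℚ) ≤ ℓ := by
            have : 3 ≤ ℓ := by
              have := hℓ.two_le
              omega
            exact_mod_cast this
          have hna : 0 < addOrderOf a := addOrderOf_pos a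
          have k1 : addOrderOf ((e0 : ZMod m) * a) ∣ addOrderOf a := order_mul_dvd e0 a
          have k2 : addOrderOf ((ℓ : ZMod m) * ((e0 : ZMod m) * a)) ∣ addOrderOf ((e0 : ZMod m) * a) :=
            order_mul_dvd ℓ _
          have k3 : addOrderOf a ∣ ℓ * addOrderOf ((e0 : ZMod m) * a) := by
            rw [addOrderOf_dvd_iff_nsmul_eq_zero, nsmul_eq_mul]
            have h6 := addOrderOf_nsmul_eq_zero ((e0 : ZMod m) * a)
            rw [nsmul_eq_mul] at h6
            have h7 := hmul _ hℓa
            push_cast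
            linear_combination (ℓ : ZMod m) * h6 - ((addOrderOf ((e0 : ZMod m) * a) : ℕ) : ZMod m) * h7
          have k4 : addOrderOf ((e0 : ZMod m) * a) ∣
              ℓ * addOrderOf ((ℓ : ZMod m) * ((e0 : ZMod m) * a)) := by
            rw [addOrderOf_dvd_iff_nsmul_eq_zero, nsmul_eq_mul]
            have h6 := addOrderOf_nsmul_eq_zero ((ℓ : ZMod m) * ((e0 : ZMod m) * a))
            rw [nsmul_eq_mul] at h6
            push_cast
            linear_combination h6
          have w1 : wo (addOrderOf ((e0 : ZMod m) * a)) ≤ wo (addOrderOf a) :=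
            wo_of_dvd hodd hna k1 (k3.trans (Nat.mul_dvd_mul_left ℓ (Dvd.intro_left ℓ rfl)))
          have w2 : wo (addOrderOf ((ℓ : ZMod m) * ((e0 : ZMod m) * a))) ≤ wo (addOrderOf a) :=
            wo_of_dvd hodd hna (k2.trans k1) (k3.trans (Nat.mul_dvd_mul_left ℓ k4))
          have w1' : (wo (addOrderOf ((e0 : ZMod m) * a)) : ℚ) ≤ wo (addOrderOf a) := by
            exact_mod_cast w1
          have w2' : (wo (addOrderOf ((ℓ : ZMod m) * ((e0 : ZMod m) * a))) : ℚ) ≤
              wo (addOrderOf a) := by exact_mod_cast w2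
          nlinarith
      · rw [v3 a h2, abs_zero]; linarith
  · intro p e hp hpq hpe hpM a ha
    have ha' : (M : ZMod m) * ((ℓ : ZMod m) * a) = 0 := by
      have := ha
      push_cast at this
      linear_combination this
    have hea : (M : ZMod m) * ((e0 : ZMod m) * a) = 0 := by
      obtain ⟨k, hk⟩ := he2'
      rw [hk]
      push_cast
      linear_combination (k : ZMod m) * ha'
    by_cases hpl : p = ℓ
    · subst hpl
      -- the case of the new prime
      have hkill : (p : ZMod m) * ((e0 : ZMod m) * a - a) = 0 := by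
        have := hmul _ ha'
        linear_combination this
      obtain ⟨j, hj, hj'⟩ := exists_mul_of_killed hpe hkill
      have hj'' : (e0 : ZMod m) * a = a + (j : ZMod m) * (e : ZMod m) := by
        linear_combination hj'
      have he0e : (e0 : ZMod m) * (e : ZMod m) = 0 := dvd_mul_zero hpe he2'
      have h5 : ∀ i ∈ range p, i ≠ j → φ' (a + (i : ZMod m) * (e : ZMod m)) =
          (φ ((p : ZMod m) * ((e0 : ZMod m) * a)) - φ ((e0 : ZMod m) * a)) / (p - 1) := by
        intro i hi hij
        have hnz : ¬ (M : ZMod m) * (a + (i : ZMod m) * (e : ZMod m)) = 0 := by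
          intro h0
          have h6 : (M : ZMod m) * ((i : ZMod m) * (e : ZMod m)) =
              (M : ZMod m) * ((j : ZMod m) * (e : ZMod m)) := by
            have := hea
            rw [hj''] at this
            linear_combination h0 - this
          have h7 : ((M * i * e : ℕ) : ZMod m) = ((M * j * e : ℕ) : ZMod m) := by
            push_cast
            linear_combination h6
          rw [ZMod.natCast_eq_natCast_iff] at h7
          have he : 0 < e := Nat.pos_of_ne_zero (by
            rintro rfl; rw [mul_zero] at hpe; exact NeZero.ne m hpe.symm)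
          have h8 : M * i ≡ M * j [MOD p] := by
            have h9 : M * i * e ≡ M * j * e [MOD p * e] := by rw [hpe]; exact h7
            exact Nat.ModEq.mul_right_cancel' he.ne' h9
          have h9 := Nat.ModEq.cancel_left_of_coprime (Nat.coprime_comm.mp hcopM) h8
          have h10 : i % p = j % p := h9
          rw [Nat.mod_eq_of_lt (mem_range.mp hi), Nat.mod_eq_of_lt hj] at h10
          exact hij h10
        have hz : ((M * p : ℕ) : ZMod m) * (a + (i : ZMod m) * (e : ZMod m)) = 0 := by
          have h0 := mul_cast_zero hpe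
          have := ha
          push_cast at this ⊢
          linear_combination this + ((M : ZMod m) * i) * h0
        have e1 : (e0 : ZMod m) * (a + (i : ZMod m) * (e : ZMod m)) = (e0 : ZMod m) * a := by
          linear_combination (i : ZMod m) * he0e
        rw [v2 _ hnz hz, e1]
      have h6 : φ' (a + (j : ZMod m) * (e : ZMod m)) = φ ((e0 : ZMod m) * a) := by
        rw [← hj'']
        exact v1 _ hea
      rw [← add_sum_erase _ _ (mem_range.mpr hj), h6,
        sum_congr rfl (fun i hi => h5 i (mem_of_mem_erase hi) (ne_of_mem_erase hi)), sum_const,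
        card_erase_of_mem (mem_range.mpr hj), card_range, nsmul_eq_mul,
        Nat.cast_sub hp.one_lt.le, Nat.cast_one, mul_div_cancel₀ _ hℓ1, v1 _ ha']
      have e2 : (p : ZMod m) * ((e0 : ZMod m) * a) = (p : ZMod m) * a := by
        linear_combination hkill
      rw [e2]
      ring
    · -- an old prime
      have hpM' : p ∣ M := by
        rcases (Nat.Prime.dvd_mul hp).mp hpM with h0 | h0
        · exact h0
        · exact absurd ((Nat.prime_dvd_prime_iff_eq hp hℓ).mp h0) hpl
      have hMe : (M : ZMod m) * (e : ZMod m) = 0 := dvd_mul_zero hpe hpM'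
      have hshift : ∀ i : ℕ, (M : ZMod m) * (a + (i : ZMod m) * (e : ZMod m)) =
          (M : ZMod m) * a := by
        intro i
        linear_combination (i : ZMod m) * hMe
      by_cases h1 : (M : ZMod m) * a = 0
      · rw [v1 ((p : ZMod m) * a) (by linear_combination (p : ZMod m) * h1),
          ← h.dist p e hp hpq hpe hpM' a h1]
        exact sum_congr rfl fun i _ => v1 _ (by rw [hshift, h1])
      · have hcop : ℓ.Coprime p := (Nat.coprime_primes hℓ hp).mpr (Ne.symm hpl)
        have he0e : (e0 : ZMod m) * (e : ZMod m) = e := hmul _ hMe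
        have ht : ∀ i ∈ range p, φ' (a + (i : ZMod m) * (e : ZMod m)) =
            (φ ((ℓ : ZMod m) * ((e0 : ZMod m) * a) + (ℓ : ZMod m) * ((i : ZMod m) * (e : ZMod m))) -
              φ ((e0 : ZMod m) * a + (i : ZMod m) * (e : ZMod m))) / (ℓ - 1) := by
          intro i _
          have h0 : ((M * ℓ : ℕ) : ZMod m) * (a + (i : ZMod m) * (e : ZMod m)) = 0 := by
            have := ha
            push_cast at this ⊢
            linear_combination this + ((i : ZMod m) * ℓ) * hMe
          rw [v2 _ (by rw [hshift]; exact h1) h0]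
          congr 3
          · linear_combination ((ℓ : ZMod m) * i) * he0e
          · linear_combination (i : ZMod m) * he0e
        have hMℓe : (M : ZMod m) * ((ℓ : ZMod m) * ((e0 : ZMod m) * a)) = 0 := by
          linear_combination (ℓ : ZMod m) * hea
        have h4 : ¬ (M : ZMod m) * ((p : ZMod m) * a) = 0 := by
          intro h0
          apply h1
          have hA : ((M * ℓ : ℕ) : ZMod m) * a = 0 := ha
          have hB : ((M * p : ℕ) : ZMod m) * a = 0 := by
            push_cast
            linear_combination h0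
          have := killed_gcd hA hB
          rwa [Nat.gcd_mul_left, hcop.gcd_eq_one, mul_one] at this
        rw [sum_congr rfl ht, ← sum_div, sum_sub_distrib,
          coset_sum_coprime φ hpe hcop, h.dist p e hp hpq hpe hpM' _ hMℓe,
          h.dist p e hp hpq hpe hpM' _ hea, v2 _ h4 (by
            have := ha
            push_cast at this ⊢
            linear_combination (p : ZMod m) * this)]
        congr 3
        · ring
        · ring

/-- extension in the direction of `q` -/
lemma PB.ext_self (h : PB q M D φ) (hq : q.Prime) : PB q (M * q) D φ := by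
  refine ⟨h.neg, ?_, h.ord, h.bd, ?_⟩
  · intro a ha
    push_cast
    linear_combination (q : ZMod m) * h.supp a ha
  · intro p e hp hpq hpe hpM a ha
    have hpM' : p ∣ M := by
      rcases (Nat.Prime.dvd_mul hp).mp hpM with h0 | h0
      · exact h0
      · exact absurd ((Nat.prime_dvd_prime_iff_eq hp hq).mp h0) hpq
    by_cases h1 : (M : ZMod m) * a = 0
    · exact h.dist p e hp hpq hpe hpM' a h1
    · have hMe : (M : ZMod m) * (e : ZMod m) = 0 := dvd_mul_zero hpe hpM'
      have hz : ∀ b : ZMod m, ¬ (M : ZMod m) * b = 0 → φ b = 0 := fun b hb => by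
        by_contra h0
        exact hb (h.supp b h0)
      rw [hz ((p : ZMod m) * a)]
      · refine sum_eq_zero fun i _ => hz _ ?_
        have : (M : ZMod m) * (a + (i : ZMod m) * (e : ZMod m)) = (M : ZMod m) * a := by
          linear_combination (i : ZMod m) * hMe
        rw [this]; exact h1
      · intro h2
        apply h1
        have hA : ((M * q : ℕ) : ZMod m) * a = 0 := ha
        have hB : ((M * p : ℕ) : ZMod m) * a = 0 := by
          push_cast
          linear_combination h2
        have hcop : q.Coprime p := (Nat.coprime_primes hq hp).mpr (Ne.symm hpq)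
        have := killed_gcd hA hB
        rwa [Nat.gcd_mul_left, hcop.gcd_eq_one, mul_one] at this

/-- full extension -/
theorem PB.extend (hq : q.Prime) {M : ℕ} (hM : M ∣ m) : ∀ {φ : ZMod m → ℚ}, PB q M D φ →
    ∃ φ' : ZMod m → ℚ, PB q m D φ' ∧ ∀ a, (M : ZMod m) * a = 0 → φ' a = φ a := by
  obtain ⟨k, hk⟩ := hM
  induction k using Nat.strong_induction_on generalizing M with
  | _ k ih =>
    intro φ h
    by_cases h1 : k = 1
    · subst h1
      rw [mul_one] at hk
      subst hk
      exact ⟨φ, h, fun _ _ => rfl⟩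
    · have hk0 : k ≠ 0 := by rintro rfl; rw [mul_zero] at hk; exact NeZero.ne m hk
      obtain ⟨ℓ, hℓ, k', hk'⟩ := Nat.exists_prime_and_dvd h1
      have hstep : ∃ φ' : ZMod m → ℚ, PB q (M * ℓ) D φ' ∧
          ∀ a, (M : ZMod m) * a = 0 → φ' a = φ a := by
        by_cases h3 : ℓ = q
        · subst h3
          exact ⟨φ, h.ext_self hq, fun _ _ => rfl⟩
        · by_cases h2 : ℓ ∣ M
          · exact h.ext_dvd hℓ h2
          · exact h.ext_not_dvd hℓ h2
      obtain ⟨φ1, hφ1, hφ1'⟩ := hstep
      have hk'0 : 0 < k' := Nat.pos_of_ne_zero (by rintro rfl; rw [mul_zero] at hk'; exact hk0 hk')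
      obtain ⟨φ2, hφ2, hφ2'⟩ := ih k' (by
        rw [hk']; exact lt_mul_of_one_lt_left hk'0 hℓ.one_lt) (M := M * ℓ)
        (by rw [hk, hk', mul_assoc]) hφ1
      refine ⟨φ2, hφ2, fun a ha => ?_⟩
      rw [hφ2' a (by push_cast; linear_combination (ℓ : ZMod m) * ha), hφ1' a ha]

lemma PB.part (h : PB q m D φ) : Part q φ where
  neg := h.neg
  half := by
    intro a ha
    have h1 : -a = a := by linear_combination -ha
    have h2 := h.neg a
    rw [h1] at h2
    linarith
  dist := by
    intro p e hp hpq hpe a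
    exact h.dist p e hp hpq hpe (Dvd.intro e hpe) a (by simp)

end Pool.Agent.Q59.PL
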