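import Pool.Agent.Q59.PL.Box
import Pool.Agent.Q59.SX.Sel

/-!
# Moving a function down without changing the pairings with partial distributions
-/

namespace Pool.Agent.Q59.PL

open Finset Pool.Agent.H916R2 Pool.Agent.Q59.FS

section Even

variable {m : ℕ} [NeZero m]

lemma even_kill' {y : ZMod m → ℤ} (hy : ∀ a, y (-a) = y a) {Q : Type*} [AddCommGroup Q]
    {c : ZMod m → Q} (hneg : ∀ a, c (-a) = - c a) (hhalf : ∀ a, a + a = 0 → c a = 0) :
    ∑ a, y a • c a = 0 := by
  classical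
  refine sum_involution (fun a _ => -a) ?_ ?_ ?_ ?_
  · intro a _
    rw [hy, hneg, smul_neg, add_neg_cancel]
  · intro a _ ha h
    apply ha
    have h1 : a + a = 0 := by linear_combination -h
    rw [hhalf a h1, smul_zero]
  · intro a _; exact mem_univ _
  · intro a _; exact neg_neg a

lemma od_kill' {x y : ZMod m → ℤ} (h : ∀ a, od x a = od y a) {Q : Type*} [AddCommGroup Q]
    {c : ZMod m → Q} (hneg : ∀ a, c (-a) = - c a) (hhalf : ∀ a, a + a = 0 → c a = 0) :
    ∑ a, x a • c a = ∑ a, y a • c a := by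
  have h1 : ∑ a, (x a - y a) • c a = 0 := by
    refine even_kill' (fun a => ?_) hneg hhalf
    have := h a
    unfold od at this
    omega
  simp only [sub_smul] at h1
  rw [sum_sub_distrib, sub_eq_zero] at h1
  exact h1

end Even

section Move

variable {m R d ℓ d' : ℕ} [NeZero m] [NeZero d] [NeZero d']

lemma push_rel' (hR : R * d = m) (hℓ : ℓ.Prime) (h : ℓ * d' = d) {Q : Type*} [AddCommGroup Q]
    {c : ZMod m → Q} {q : ℕ} (hq : ℓ ≠ q) (hc : Part q c) {k : (ZMod d)ˣ → ℤ}
    (hK : ∀ κ ∈ KK h, ∀ u, k (u * κ) = k u) :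
    ∑ u, k u • c (iota R (u : ZMod d)) =
      ∑ v : (ZMod d')ˣ, k (sec h v) • c (iota (R * ℓ) (v : ZMod d')) -
        if ℓ.Coprime d' then ∑ v : (ZMod d')ˣ, k (sec h v) • c (g3 R ℓ d' m v) else 0 := by
  rw [fiber_sum h]
  have h1 : ∀ v : (ZMod d')ˣ, ∑ κ ∈ KF (KK h), k (sec h v * κ) •
      c (iota R ((sec h v * κ : (ZMod d)ˣ) : ZMod d)) = k (sec h v) •
        (c (iota (R * ℓ) (v : ZMod d')) - if ℓ.Coprime d' then c (g3 R ℓ d' m v) else 0) := by
    intro v
    have h2 : ∀ κ ∈ KF (KK h), k (sec h v * κ) •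
        c (iota R ((sec h v * κ : (ZMod d)ˣ) : ZMod d)) = k (sec h v) •
          c (iota R ((sec h v * κ : (ZMod d)ˣ) : ZMod d)) := fun κ hκ => by
      rw [hK κ (mem_KF.mp hκ)]
    rw [sum_congr rfl h2, ← smul_sum]
    congr 1
    have h3 := coset_decomp hR hℓ h c (sec h v)
    have h4 := hc.dist ℓ (R * d') hℓ hq (by rw [← hR, ← h]; ring)
      (iota R ((sec h v : (ZMod d)ˣ) : ZMod d))
    rw [h4, iota_sec hR h, sec_spec] at h3
    rw [eq_sub_iff_add_eq, h3]
    congr 1
    unfold g3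
    split_ifs <;> rfl
  rw [sum_congr rfl fun v _ => h1 v]
  simp only [smul_sub]
  rw [sum_sub_distrib]
  congr 1
  split_ifs
  · rfl
  · simp

/-- **The move.** -/
theorem move_part (hR : R * d = m) (hℓ : ℓ.Prime) {q : ℕ} (hq : ℓ ≠ q) (h : ℓ * d' = d)
    (x : ZMod m → ℤ) {k : (ZMod d)ˣ → ℤ} (hK : ∀ κ ∈ KK h, ∀ u, k (u * κ) = k u)
    (hodd : ∀ u, k (-u) = - k u) :
    ∃ y : ZMod m → ℤ, Eqv q y x ∧
      (∀ u : (ZMod d)ˣ, od y (iota R (u : ZMod d)) = od x (iota R (u : ZMod d)) - k u) ∧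
      (∀ a, addOrderOf a ≠ d → addOrderOf a ≠ d' → od y a = od x a) := by
  classical
  have hRℓ : R * ℓ * d' = m := by rw [mul_assoc, h, hR]
  set f := od x with hf
  set k' : (ZMod d')ˣ → ℤ := fun v => k (sec h v) with hk'
  set g1 : (ZMod d)ˣ → ZMod m := fun u => iota R (u : ZMod d) with hg1
  set g2 : (ZMod d')ˣ → ZMod m := fun v => iota (R * ℓ) (v : ZMod d') with hg2
  have hfneg : ∀ a, f (-a) = - f a := od_neg x
  have hk'odd : ∀ v, k' (-v) = - k' v := by
    intro v
    simp only [hk']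
    rw [← hodd]
    have h1 : (- sec h v)⁻¹ * sec h (-v) ∈ KK h := by
      rw [mem_KK, map_mul, map_inv, sec_spec]
      have h2 : ZMod.unitsMap (Dvd.intro_left ℓ h) (- sec h v) = -v := by
        apply Units.ext
        rw [unitsMap_coe, Units.val_neg, map_neg, ← unitsMap_coe, sec_spec, Units.val_neg]
      rw [h2, inv_mul_cancel]
    have h3 := hK _ h1 (- sec h v)
    rw [mul_inv_cancel_left] at h3
    exact h3
  have hg1neg : ∀ u, g1 (-u) = - g1 u := by
    intro u; simp only [hg1]; rw [Units.val_neg, iota_neg hR]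
  have hg2neg : ∀ u, g2 (-u) = - g2 u := by
    intro u; simp only [hg2]; rw [Units.val_neg, iota_neg hRℓ]
  have hg3neg : ∀ u, g3 R ℓ d' m (-u) = - g3 R ℓ d' m u := by
    intro u
    unfold g3
    split_ifs
    · rw [mul_neg, Units.val_neg, iota_neg hRℓ]
    · simp
  set T : ℤ := if ℓ.Coprime d' then 1 else 0 with hT
  set y : ZMod m → ℤ := fun a => posP f a - push g1 (posP k) a + push g2 (posP k') a -
    T * push (g3 R ℓ d' m) (posP k') a with hy
  have hody : ∀ a, od y a = (f a - push g1 k a) + (push g2 k' a - T * push (g3 R ℓ d' m) k' a) := by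
    intro a
    have e1 : posP f a - posP f (-a) = f a := posP_sub (hfneg a)
    have e2 := od_push g1 k (Equiv.neg _) hg1neg hodd a
    have e3 := od_push g2 k' (Equiv.neg _) hg2neg hk'odd a
    have e4 := od_push (g3 R ℓ d' m) k' (Equiv.neg _) hg3neg hk'odd a
    rw [← e1, ← e2, ← e3, ← e4]
    simp only [hy, od]
    ring
  have hz1 : ∀ a, addOrderOf a ≠ d → push g1 k a = 0 := by
    intro a ha
    unfold push
    refine sum_eq_zero fun u _ => if_neg ?_
    intro h0
    apply ha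
    rw [← h0]
    exact addOrderOf_iota_unit hR u
  have hz2 : ∀ a, addOrderOf a ≠ d' → push g2 k' a = 0 := by
    intro a ha
    unfold push
    refine sum_eq_zero fun u _ => if_neg ?_
    intro h0
    apply ha
    rw [← h0]
    exact addOrderOf_iota_unit hRℓ u
  have hz3 : ∀ a, addOrderOf a ≠ d' → T * push (g3 R ℓ d' m) k' a = 0 := by
    intro a ha
    by_cases hcop : ℓ.Coprime d'
    · have : push (g3 R ℓ d' m) k' a = 0 := by
        unfold push
        refine sum_eq_zero fun u _ => if_neg ?_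
        intro h0
        apply ha
        rw [← h0]
        unfold g3
        rw [dif_pos hcop]
        exact addOrderOf_iota_unit hRℓ _
      rw [this, mul_zero]
    · rw [hT, if_neg hcop, zero_mul]
  have hdd : d ≠ d' := by
    intro h0
    rw [← h0] at h
    have h1 : 0 < d := NeZero.pos d
    have h2 := hℓ.one_lt
    nlinarith
  refine ⟨y, ?_, ?_, ?_⟩
  · intro Q _ c hc
    have h1 : ∑ a, x a • c a = ∑ a, posP f a • c a := by
      refine od_kill' (fun a => ?_) hc.neg hc.half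
      have e1 : posP f a - posP f (-a) = f a := posP_sub (hfneg a)
      exact e1.symm
    have h2 : ∑ a, y a • c a = ∑ a, posP f a • c a - ∑ a, push g1 (posP k) a • c a +
        ∑ a, push g2 (posP k') a • c a - T • ∑ a, push (g3 R ℓ d' m) (posP k') a • c a := by
      simp only [hy, add_smul, sub_smul, mul_smul]
      rw [sum_sub_distrib, sum_add_distrib, sum_sub_distrib, smul_sum]
    rw [h2, h1, push_sum, push_sum, push_sum]
    have h3 := push_rel' hR hℓ h hq hc (k := posP k) (by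
      intro κ hκ u
      unfold posP
      rw [hK κ hκ])
    have h4 : ∑ i, posP k i • c (g1 i) = ∑ u : (ZMod d)ˣ, posP k u • c (iota R (u : ZMod d)) := rfl
    rw [h4, h3]
    have h5 : ∑ i, posP k' i • c (g2 i) =
      ∑ v : (ZMod d')ˣ, posP k (sec h v) • c (iota (R * ℓ) (v : ZMod d')) := rfl
    have h6 : (if ℓ.Coprime d' then ∑ v : (ZMod d')ˣ, posP k (sec h v) • c (g3 R ℓ d' m v) else 0) =
        T • ∑ i, posP k' i • c (g3 R ℓ d' m i) := by
      rw [hT]
      split_ifs
      · rw [one_smul]; rfl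
      · rw [zero_smul]
    rw [h5, h6]
    abel
  · intro u
    have hord : addOrderOf (iota R (u : ZMod d) : ZMod m) = d := addOrderOf_iota_unit hR u
    rw [hody, hz2 _ (by rw [hord]; exact hdd), hz3 _ (by rw [hord]; exact hdd)]
    have hp1 : push g1 k (iota R (u : ZMod d)) = k u := by
      unfold push
      rw [sum_eq_single u]
      · rw [if_pos rfl]
      · intro v _ hv
        rw [if_neg]
        intro h0
        exact hv (Units.ext (iota_inj hR h0))
      · intro h0; exact absurd (mem_univ _) h0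
    rw [hp1]
    ring
  · intro a h1 h2
    rw [hody, hz1 a h1, hz2 a h2, hz3 a h2]
    ring

end Move

section Kill

variable {m R d : ℕ} [NeZero m] [NeZero d]

/-- Removing the top part, which is a sum of functions invariant in the directions of a list. -/
theorem kill_list {q : ℕ} (hq2 : q ≠ 2) (hq : q.Prime) (hqd : q ∣ d) (hR : R * d = m) :
    ∀ (L : List ℕ), (∀ ℓ ∈ L, ℓ.Prime ∧ ℓ ≠ q ∧ ℓ ∣ d) → L.Nodup → ∀ (x : ZMod m → ℤ),
      (∀ u : (ZMod d)ˣ, LB (L.map (KL d)) (TT u (fun v => od x (iota R (v : ZMod d))))) →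
      ∃ y : ZMod m → ℤ, Eqv q y x ∧ (∀ u : (ZMod d)ˣ, od y (iota R (u : ZMod d)) = 0) ∧
        (∀ a, addOrderOf a ≠ d → (∀ ℓ, ℓ.Prime → ℓ ≠ q → ℓ * addOrderOf a ≠ d) → od y a = od x a) := by
  intro L
  induction L with
  | nil =>
    intro _ _ x h
    refine ⟨x, Eqv.refl q x, fun u => ?_, fun _ _ _ => rfl⟩
    have h1 : TT u (fun v => od x (iota R ((v : (ZMod d)ˣ) : ZMod d))) 1 = 0 := h u
    rw [TT_apply, mul_one] at h1
    exact h1
  | cons ℓ L ih =>
    intro hL hnd x h
    obtain ⟨hℓ, hℓq, hℓd⟩ := hL ℓ (List.mem_cons_self ..)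
    have hL' : ∀ r ∈ L, r.Prime ∧ r ≠ q ∧ r ∣ d := fun r hr => hL r (List.mem_cons_of_mem _ hr)
    set F : (ZMod d)ˣ → ℤ := fun v => od x (iota R (v : ZMod d)) with hF
    have hFodd : ∀ u, F (-1 * u) = - F u := by
      intro u
      rw [neg_one_mul, hF]
      simp only
      rw [Units.val_neg, iota_neg hR, od_neg]
    have hprime : ∀ r ∈ ℓ :: L, r.Prime := fun r hr => (hL r hr).1
    have hind : Ind ((ℓ :: L).map (KL d)) := ind_KL d hprime hnd
    have hqL : q ∉ ℓ :: L := fun h0 => (hL q h0).2.1 rfl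
    have hnprod : ¬ q ∣ (ℓ :: L).prod := by
      intro h0
      obtain ⟨r, hr, hqr⟩ := (Nat.Prime.prime hq).dvd_prod_iff.mp h0
      have := (Nat.prime_dvd_prime_iff_eq hq (hprime r hr)).mp hqr
      exact hqL (this ▸ hr)
    have hneg : (-1 : (ZMod d)ˣ) ∉ jn ((ℓ :: L).map (KL d)) := by
      intro h0
      have h1 := jn_KL_le d _ h0
      rw [mem_KL, Units.val_neg, Units.val_one] at h1
      have h2 : ((2 * (ℓ :: L).prod : ℕ) : ZMod d) = 0 := by
        push_cast
        push_cast at h1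
        linear_combination -h1
      rw [ZMod.natCast_eq_zero_iff] at h2
      rcases hq.dvd_mul.mp (hqd.trans h2) with h3 | h3
      · exact hq2 ((Nat.prime_dvd_prime_iff_eq hq Nat.prime_two).mp h3)
      · exact hnprod h3
    have hK : KL d ℓ ⊓ (jn (L.map (KL d)) ⊔ Subgroup.zpowers (-1 : (ZMod d)ˣ)) = ⊥ := by
      rw [eq_bot_iff]
      rintro κ ⟨hκ, hκ'⟩
      obtain ⟨v, hv, z, hz, rfl⟩ := Subgroup.mem_sup.mp hκ'
      obtain ⟨k, rfl⟩ := Subgroup.mem_zpowers_iff.mp hz
      rcases Int.even_or_odd k with hk | hk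
      · rw [hk.neg_one_zpow, mul_one] at hκ ⊢
        have h1 : v ∈ KL d ℓ ⊓ jn (L.map (KL d)) := ⟨hκ, hv⟩
        have h2 : KL d ℓ ⊓ jn (L.map (KL d)) = ⊥ := hind.1
        rw [h2] at h1
        exact h1
      · exfalso
        rw [hk.neg_one_zpow] at hκ
        apply hneg
        have h1 : (-1 : (ZMod d)ˣ) = v * -1 * v⁻¹ := by
          rw [mul_comm v (-1), mul_inv_cancel_right]
        rw [h1]
        exact Subgroup.mul_mem_sup hκ ((jn (L.map (KL d))).inv_mem hv)
    obtain ⟨g, hg⟩ := Pool.Agent.Q59.SX.exists_sel (KL d ℓ) (L.map (KL d)) (-1) F hFodd hK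
    have hgo : ∀ u, g (-u) = - g u := fun u => by
      have := hg.odd u
      rwa [neg_one_mul] at this
    obtain ⟨d', hd'⟩ := hℓd
    have hd'0 : d' ≠ 0 := by
      rintro rfl
      rw [mul_zero] at hd'
      exact NeZero.ne d hd'
    have : NeZero d' := ⟨hd'0⟩
    have hinv : ∀ κ ∈ KK hd'.symm, ∀ u, g (u * κ) = g u := by
      intro κ hκ u
      rw [← KL_eq_KK hℓ.pos hd'.symm] at hκ
      exact hg.inv κ hκ u
    obtain ⟨x1, e1, e2, e3⟩ := move_part hR hℓ hℓq hd'.symm x hinv hgo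
    have hLB1 : ∀ u : (ZMod d)ˣ, LB (L.map (KL d))
        (TT u (fun v => od x1 (iota R (v : ZMod d)))) := by
      intro u
      have h1 := hg.lb (h u)
      have h2 : (fun v : (ZMod d)ˣ => od x1 (iota R (v : ZMod d))) = fun v => F v - g v := by
        funext v
        rw [e2 v]
      rw [h2]
      exact h1
    obtain ⟨y, f1, f2, f3⟩ := ih hL' (List.nodup_cons.mp hnd).2 x1 hLB1
    refine ⟨y, f1.trans e1, f2, fun a ha ha' => ?_⟩
    rw [f3 a ha ha', e3 a ha]
    intro h0
    exact ha' ℓ hℓ hℓq (by rw [h0, hd'])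

end Kill

end Pool.Agent.Q59.PL
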