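import Pool.Agent.Q59.PL.Step

/-!
# The improved step for odd orders
-/

namespace Pool.Agent.Q59.PL

open Finset Pool.Agent.H916R2 Pool.Agent.Q59.FS

section Neg

variable {d : ℕ} [NeZero d]

omit [NeZero d] in
lemma dvd_of_neg_one {L : List ℕ} (h : (-1 : (ZMod d)ˣ) ∈ jn (L.map (KL d))) : d ∣ 2 * L.prod := by
  have h1 := jn_KL_le d _ h
  rw [mem_KL, Units.val_neg, Units.val_one] at h1
  have h2 : ((2 * L.prod : ℕ) : ZMod d) = 0 := by
    push_cast
    push_cast at h1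
    linear_combination -h1
  rwa [ZMod.natCast_eq_zero_iff] at h2

lemma not_dvd_two_prod {L : List ℕ} (hL : ∀ p ∈ L, p.Prime) {r : ℕ} (hr : r.Prime) (hr2 : r ≠ 2)
    (h : r ∉ L) : ¬ r ∣ 2 * L.prod := by
  intro h0
  rcases hr.dvd_mul.mp h0 with h1 | h1
  · exact hr2 ((Nat.prime_dvd_prime_iff_eq hr Nat.prime_two).mp h1)
  · obtain ⟨p, hp, hrp⟩ := (Nat.Prime.prime hr).dvd_prod_iff.mp h1
    have := (Nat.prime_dvd_prime_iff_eq hr (hL p hp)).mp hrp
    exact h (this ▸ hp)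

end Neg

section Step

variable {m R d : ℕ} [NeZero m] [NeZero d] {q : ℕ} {x0 x : ZMod m → ℤ}

/-- an order with a direction with at least three elements -/
theorem Top.step_big (h : Top q x0 R d x) (hn : nq q x0 < 2 * ((q : ℤ) - 1)) {ℓ : ℕ}
    (hℓ : ℓ.Prime) (hℓ2 : ℓ ≠ 2) (hℓd : ℓ ∣ d) (hℓq : ℓ ≠ q) (hcard : 3 ≤ Nat.card (KL d ℓ)) :
    ∃ y, St q x0 (d - 1) y := by
  have hprime : ∀ p ∈ Lq d q ℓ, p.Prime := fun p hp => (mem_Lq.mp hp).1
  have hqn : q ∉ Lq d q ℓ := fun h1 => (mem_Lq.mp h1).2.2.1 rfl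
  have hℓn : ℓ ∉ Lq d q ℓ := fun h1 => (mem_Lq.mp h1).2.2.2 rfl
  have hind1 : Ind ((ℓ :: q :: Lq d q ℓ).map (KL d)) := by
    refine ind_KL d ?_ ?_
    · intro p hp
      rcases List.mem_cons.mp hp with rfl | hp
      · exact hℓ
      · rcases List.mem_cons.mp hp with rfl | hp
        · exact h.hq
        · exact hprime p hp
    · refine List.nodup_cons.mpr ⟨fun h1 => ?_, List.nodup_cons.mpr ⟨hqn, nodup_Lq⟩⟩
      rcases List.mem_cons.mp h1 with h2 | h2
      · exact hℓq h2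
      · exact hℓn h2
  have hind2 : Ind ((q :: ℓ :: Lq d q ℓ).map (KL d)) := by
    refine ind_KL d ?_ ?_
    · intro p hp
      rcases List.mem_cons.mp hp with rfl | hp
      · exact h.hq
      · rcases List.mem_cons.mp hp with rfl | hp
        · exact hℓ
        · exact hprime p hp
    · refine List.nodup_cons.mpr ⟨fun h1 => ?_, List.nodup_cons.mpr ⟨hℓn, nodup_Lq⟩⟩
      rcases List.mem_cons.mp h1 with h2 | h2
      · exact hℓq h2.symm
      · exact hqn h2
  have hcov : ∀ r : ℕ, r.Prime → r ∣ d → r = q ∨ r ∈ ℓ :: Lq d q ℓ := by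
    intro r hr hrd
    by_cases h1 : r = q
    · exact Or.inl h1
    · right
      by_cases h2 : r = ℓ
      · rw [h2]; exact List.mem_cons_self ..
      · exact List.mem_cons_of_mem _ (mem_Lq.mpr ⟨hr, hrd, h1, h2⟩)
  refine h.finish (L := ℓ :: Lq d q ℓ) ?_ (List.nodup_cons.mpr ⟨hℓn, nodup_Lq⟩) ?_
  · intro r hr
    rcases List.mem_cons.mp hr with rfl | h1
    · exact ⟨hℓ, hℓq, hℓd⟩
    · obtain ⟨k1, k2, k3, _⟩ := mem_Lq.mp h1
      exact ⟨k1, k3, k2⟩
  · intro u
    by_contra hcon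
    have hzn : (-1 : (ZMod d)ˣ) ∉ KL d q ⊔ jn ((Lq d q ℓ).map (KL d)) := by
      intro h0
      have h1 : (-1 : (ZMod d)ˣ) ∈ jn ((q :: Lq d q ℓ).map (KL d)) := h0
      have h2 := dvd_of_neg_one h1
      refine not_dvd_two_prod (L := q :: Lq d q ℓ) ?_ hℓ hℓ2 ?_ (hℓd.trans h2)
      · intro p hp
        rcases List.mem_cons.mp hp with rfl | hp
        · exact h.hq
        · exact hprime p hp
      · intro h3
        rcases List.mem_cons.mp h3 with h4 | h4
        · exact hℓq h4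
        · exact hℓn h4
    obtain ⟨b, hb, hdis⟩ := exists_box_disj (K := KL d q) (K0 := KL d ℓ)
      (P := (Lq d q ℓ).map (KL d)) hind2.2 hind1.1 hcard (z := -1)
      (by rw [neg_mul_neg, one_mul]) hzn hcon
    have h1 := key_disj (K := KL d q) (P := (ℓ :: Lq d q ℓ).map (KL d)) hind2
      (z := -1) (by rw [neg_mul_neg, one_mul]) h.odd
      (fun b hb => h.hrel hcov b hb) (fun b h1 h2 h3 => h.hpair hcov b h1 h2 h3) hb hdis
    have h2 := card_KL_ge' h.hq h.hqd
    linarith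

/-- an order divisible by the square of `q` -/
theorem Top.step_sq (h : Top q x0 R d x) (hn : nq q x0 < 2 * ((q : ℤ) - 1)) (hqq : q * q ∣ d) :
    ∃ y, St q x0 (d - 1) y := by
  have hprime : ∀ p ∈ Lq d q q, p.Prime := fun p hp => (mem_Lq.mp hp).1
  have hqn : q ∉ Lq d q q := fun h1 => (mem_Lq.mp h1).2.2.1 rfl
  have hind : Ind ((q :: Lq d q q).map (KL d)) := by
    refine ind_KL d ?_ (List.nodup_cons.mpr ⟨hqn, nodup_Lq⟩)
    intro p hp
    rcases List.mem_cons.mp hp with rfl | hp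
    · exact h.hq
    · exact hprime p hp
  have hcov : ∀ r : ℕ, r.Prime → r ∣ d → r = q ∨ r ∈ Lq d q q := by
    intro r hr hrd
    by_cases h1 : r = q
    · exact Or.inl h1
    · exact Or.inr (mem_Lq.mpr ⟨hr, hrd, h1, h1⟩)
  refine h.finish (L := Lq d q q) ?_ nodup_Lq ?_
  · intro r hr
    obtain ⟨k1, k2, k3, _⟩ := mem_Lq.mp hr
    exact ⟨k1, k3, k2⟩
  · intro u
    by_contra hcon
    obtain ⟨b, hb⟩ := exists_box hind.2 hcon
    have hdis : ∀ w, ∀ κ ∈ KL d q, b w ≠ 0 → b (-1 * w * κ) = 0 := by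
      intro w κ hκ hw
      by_contra h0
      have h1 := hb.supp _ hw
      have h2 := hb.supp _ h0
      have h3 : (-1 : (ZMod d)ˣ) ∈ KL d q ⊔ jn ((Lq d q q).map (KL d)) := by
        have h4 := (jn ((Lq d q q).map (KL d))).mul_mem h2
          ((jn ((Lq d q q).map (KL d))).inv_mem h1)
        have h5 := Subgroup.mul_mem_sup ((KL d q).inv_mem hκ) h4
        have e : κ⁻¹ * (u⁻¹ * (-1 * w * κ) * (u⁻¹ * w)⁻¹) = -1 := by
          rw [← mul_assoc, mul_inv_eq_iff_eq_mul]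
          calc κ⁻¹ * (u⁻¹ * (-1 * w * κ)) = (κ⁻¹ * κ) * (-1 * (u⁻¹ * w)) := by
                simp only [mul_comm, mul_left_comm, mul_assoc]
            _ = _ := by rw [inv_mul_cancel, one_mul]
        rwa [e] at h5
      have h4 : (-1 : (ZMod d)ˣ) ∈ jn ((q :: Lq d q q).map (KL d)) := h3
      have h5 := dvd_of_neg_one h4
      rw [List.prod_cons] at h5
      have h6 : q * q ∣ q * (2 * (Lq d q q).prod) := by
        refine (hqq.trans h5).trans (dvd_of_eq ?_)
        ring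
      have h7 := Nat.dvd_of_mul_dvd_mul_left h.hq.pos h6
      exact not_dvd_two_prod hprime h.hq h.hq2 hqn h7
    have h1 := key_disj (K := KL d q) (P := (Lq d q q).map (KL d)) hind
      (z := -1) (by rw [neg_mul_neg, one_mul]) h.odd
      (fun b hb => h.hrel hcov b hb) (fun b h1 h2 h3 => h.hpair hcov b h1 h2 h3) hb hdis
    have h2 := card_KL_ge' h.hq h.hqd
    linarith

/-- the order `q` -/
theorem Top.step_self (h : Top q x0 R d x) (hd : d = q) : ∃ y, St q x0 (d - 1) y := by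
  classical
  subst hd
  refine h.finish (L := []) (fun ℓ hℓ => absurd hℓ (List.not_mem_nil)) List.nodup_nil ?_
  intro u
  change TT u (FF R d x) 1 = 0
  rw [TT_apply, mul_one]
  have hcov : ∀ r : ℕ, r.Prime → r ∣ d → r = d ∨ r ∈ ([] : List ℕ) := fun r hr hrd =>
    Or.inl ((Nat.prime_dvd_prime_iff_eq hr h.hq).mp hrd)
  have htop : ∀ w : (ZMod d)ˣ, w ∈ KL d d := by
    intro w
    rw [mem_KL, ZMod.natCast_self, zero_mul]
  have h1 := h.hrel hcov (fun w => (if w = u then 1 else 0) - (if w = -1 * u then 1 else 0)) (by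
    intro K hK v
    have hK' : K = KL d d := by
      rcases List.mem_cons.mp hK with h2 | h2
      · exact h2
      · exact absurd h2 (List.not_mem_nil)
    subst hK'
    rw [sum_sub_distrib, sub_eq_zero]
    have key : ∀ t : (ZMod d)ˣ, ∑ κ ∈ KF (KL d d), (if v * κ = t then (1 : ℤ) else 0) = 1 := by
      intro t
      rw [sum_eq_single (v⁻¹ * t)]
      · rw [mul_inv_cancel_left, if_pos rfl]
      · intro κ _ hκ
        rw [if_neg]
        intro h2
        apply hκ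
        rw [← h2, inv_mul_cancel_left]
      · intro h2
        exact absurd (mem_KF.mpr (htop _)) h2
    rw [key, key])
  simp only [mul_sub, mul_ite, mul_one, mul_zero] at h1
  rw [sum_sub_distrib, sum_ite_eq' univ, sum_ite_eq' univ] at h1
  simp only [mem_univ, if_true] at h1
  rw [h.odd] at h1
  omega

/-- **The improved step.** -/
theorem Top.step_odd (h : Top q x0 R d x) (hn : nq q x0 < 2 * ((q : ℤ) - 1)) (hd : d % 2 = 1)
    (hd3 : d ≠ 3 * q) (hq3 : q ≠ 3) : ∃ y, St q x0 (d - 1) y := by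
  by_cases hqq : q * q ∣ d
  · exact h.step_sq hn hqq
  by_cases hdq : d = q
  · exact h.step_self hdq
  obtain ⟨e, he⟩ := h.hqd
  have hqe : ¬ q ∣ e := by
    rintro ⟨f, hf⟩
    exact hqq ⟨f, by rw [he, hf]; ring⟩
  have he1 : e ≠ 1 := by
    rintro rfl
    exact hdq (by rw [he, mul_one])
  have he3 : e ≠ 3 := by
    rintro rfl
    exact hd3 (by rw [he]; ring)
  have heodd : ¬ 2 ∣ e := by
    intro h2
    have : 2 ∣ d := by rw [he]; exact Dvd.dvd.mul_left h2 q
    omega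
  have he0 : e ≠ 0 := by
    rintro rfl
    exact heodd (dvd_zero _)
  by_cases hex : ∃ ℓ : ℕ, ℓ.Prime ∧ ℓ ∣ e ∧ ℓ ≠ 3
  · obtain ⟨ℓ, hℓ, hℓe, hℓ3⟩ := hex
    have hℓ2 : ℓ ≠ 2 := by rintro rfl; exact heodd hℓe
    have hℓq : ℓ ≠ q := by rintro rfl; exact hqe hℓe
    have hℓd : ℓ ∣ d := by rw [he]; exact Dvd.dvd.mul_left hℓe q
    refine h.step_big hn hℓ hℓ2 hℓd hℓq ?_
    have h1 := card_KL_ge' hℓ hℓd
    have h2 := hℓ.two_le
    have h4 : ℓ ≠ 4 := by rintro rfl; exact absurd hℓ (by norm_num)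
    omega
  · push Not at hex
    -- `9` divides `d`
    obtain ⟨r, hr, hre⟩ := Nat.exists_prime_and_dvd he1
    obtain rfl := hex r hr hre
    obtain ⟨f, hf⟩ := hre
    have hf1 : f ≠ 1 := by
      rintro rfl
      exact he3 (by rw [hf])
    obtain ⟨r', hr', hr'f⟩ := Nat.exists_prime_and_dvd hf1
    obtain rfl := hex r' hr' (by rw [hf]; exact Dvd.dvd.mul_left hr'f 3)
    obtain ⟨g, hg⟩ := hr'f
    have h9 : 9 ∣ d := ⟨q * g, by rw [he, hf, hg]; ring⟩
    refine h.step_big hn Nat.prime_three (by norm_num) ((show 3 ∣ 9 by norm_num).trans h9)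
      (Ne.symm hq3) ?_
    have h3 : 3 * (q * f) = d := by rw [he, hf]; ring
    rw [KL_eq_KK (by norm_num) h3, card_KK_dvd Nat.prime_three h3 ⟨q * g, by rw [hg]; ring⟩]

end Step

section Peel

variable {m : ℕ} [NeZero m] {q : ℕ} {x0 : ZMod m → ℤ}

/-- **Levels prime to three.** -/
theorem peel_no_three (h4 : ¬ 4 ∣ m) (h3 : ¬ 3 ∣ m) (hq : q.Prime) (hq2 : q ≠ 2)
    (hrel : Rel x0) (hn : nq q x0 < 2 * ((q : ℤ) - 1)) :
    ∃ y, Eqv q y x0 ∧ (∀ a, ¬ q ∣ addOrderOf a → od y a = od x0 a) ∧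
      ∀ a, q ∣ addOrderOf a → od y a = 0 := by
  obtain ⟨y, hy⟩ := down (D0 := 0) (D1 := m) (fun d _ _ _ R x h => by
      have hdm : d ∣ m := Dvd.intro_left R h.hR
      by_cases hd : d % 4 = 2
      · exact h.step_two hd
      · refine h.step_odd hn ?_ ?_ ?_
        · by_contra h0
          apply h4
          exact (show 4 ∣ d by omega).trans hdm
        · rintro rfl
          exact h3 ((Dvd.intro _ rfl).trans hdm)
        · rintro rfl
          exact h3 (h.hqd.trans hdm)) hq hq2 hrel m le_rfl ⟨x0, St.init q x0⟩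
  refine ⟨y, hy.eqv, hy.off, fun a ha => ?_⟩
  by_contra hne
  have h1 := hy.top a ha hne
  have h2 := addOrderOf_pos a
  omega

end Peel

end Pool.Agent.Q59.PL
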