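import Pool.Agent.Q59.PL.Move
import Pool.Agent.Q59.SX.Ind

/-!
# One step: the elements of one order divisible by `q`
-/

namespace Pool.Agent.Q59.PL

open Finset Pool.Agent.H916R2 Pool.Agent.Q59.FS

section Defs

variable {m : ℕ} [NeZero m]

/-- `x` is equal to `x0` modulo the relations of the primes different from `q`, agrees with it in
orders prime to `q`, and its other orders are at most `D` -/
structure St (q : ℕ) (x0 : ZMod m → ℤ) (D : ℕ) (x : ZMod m → ℤ) : Prop where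
  eqv : Eqv q x x0
  off : ∀ a, ¬ q ∣ addOrderOf a → od x a = od x0 a
  top : ∀ a, q ∣ addOrderOf a → od x a ≠ 0 → addOrderOf a ≤ D

lemma St.init (q : ℕ) (x0 : ZMod m → ℤ) : St q x0 m x0 :=
  ⟨Eqv.refl q x0, fun _ _ => rfl, fun a _ _ => by
    have h1 : addOrderOf a ∣ m := by
      have := addOrderOf_dvd_card (x := a)
      rwa [ZMod.card] at this
    exact Nat.le_of_dvd (NeZero.pos m) h1⟩

end Defs

section Card

variable {d : ℕ} [NeZero d]

lemma card_KL_ge' {p : ℕ} (hp : p.Prime) (hpd : p ∣ d) : (p : ℤ) - 1 ≤ Nat.card (KL d p) := by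
  obtain ⟨e, he⟩ := hpd
  rw [KL_eq_KK hp.pos he.symm]
  by_cases h : p ∣ e
  · rw [card_KK_dvd hp he.symm h]; linarith
  · rw [card_KK_not_dvd hp he.symm h, Nat.cast_sub hp.one_lt.le]; simp

/-- the primes dividing `d` which are different from `q` and from `r` -/
def Lq (d q r : ℕ) : List ℕ := d.primeFactorsList.dedup.filter (fun p => p ≠ q ∧ p ≠ r)

lemma mem_Lq {q r p : ℕ} : p ∈ Lq d q r ↔ p.Prime ∧ p ∣ d ∧ p ≠ q ∧ p ≠ r := by
  unfold Lq
  rw [List.mem_filter, List.mem_dedup, Nat.mem_primeFactorsList (NeZero.ne d)]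
  simp [and_assoc]

lemma nodup_Lq {q r : ℕ} : (Lq d q r).Nodup := List.Nodup.filter _ (List.nodup_dedup _)

end Card

section Top

variable {m R d : ℕ} [NeZero m] [NeZero d]

/-- the situation at the top order -/
structure Top (q : ℕ) (x0 : ZMod m → ℤ) (R d : ℕ) (x : ZMod m → ℤ) : Prop where
  hq : q.Prime
  hq2 : q ≠ 2
  hR : R * d = m
  hqd : q ∣ d
  rel : Rel x0
  st : St q x0 d x

variable {q : ℕ} {x0 x : ZMod m → ℤ}

/-- the top part -/
noncomputable def FF (R d : ℕ) (x : ZMod m → ℤ) : (ZMod d)ˣ → ℤ := fun u =>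
  od x (iota R (u : ZMod d))

omit [NeZero d] in
lemma Top.htop (h : Top q x0 R d x) : ∀ a, od x a ≠ 0 → d ∣ addOrderOf a → addOrderOf a = d := by
  intro a ha hda
  exact le_antisymm (h.st.top a (h.hqd.trans hda) ha) (Nat.le_of_dvd (addOrderOf_pos a) hda)

lemma Top.odd (h : Top q x0 R d x) (u : (ZMod d)ˣ) : FF R d x (-1 * u) = - FF R d x u := by
  unfold FF
  rw [neg_one_mul, Units.val_neg, iota_neg h.hR, od_neg]

lemma Top.hrel (h : Top q x0 R d x) {L : List ℕ} (hL : ∀ ℓ : ℕ, ℓ.Prime → ℓ ∣ d → ℓ = q ∨ ℓ ∈ L)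
    (b : (ZMod d)ˣ → ℤ) (hb : Z0 (KL d q :: L.map (KL d)) b) :
    ∑ w, FF R d x w * b w = 0 := by
  refine Pool.Agent.Q59.SX.top_rel' h.hR (h.st.eqv.rel h.rel) h.htop fun ℓ hℓ hℓd u => ?_
  rcases hL ℓ hℓ hℓd with h1 | h1
  · exact hb _ (by rw [h1]; exact List.mem_cons_self ..) u
  · exact hb _ (List.mem_cons_of_mem _ (List.mem_map.mpr ⟨ℓ, h1, rfl⟩)) u

lemma Top.hpair (h : Top q x0 R d x) {L : List ℕ} (hL : ∀ ℓ : ℕ, ℓ.Prime → ℓ ∣ d → ℓ = q ∨ ℓ ∈ L)
    (b : (ZMod d)ˣ → ℚ) (hodd : ∀ w, b (-1 * w) = - b w) (hb1 : ∀ w, |b w| ≤ 1)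
    (hb : ∀ K' ∈ L.map (KL d), ∀ u, ∑ κ ∈ KF K', b (u * κ) = 0) :
    |∑ w, (FF R d x w : ℚ) * b w| ≤ (nq q x0 : ℤ) := by
  refine pairing h.hq h.hR h.hqd h.st.eqv h.htop (fun u => ?_) hb1 fun ℓ hℓ hℓq hℓd u => ?_
  · have := hodd u
    rwa [neg_one_mul] at this
  · rcases hL ℓ hℓ hℓd with h1 | h1
    · exact absurd h1 hℓq
    · exact hb _ (List.mem_map.mpr ⟨ℓ, h1, rfl⟩) u

/-- finishing the step -/
theorem Top.finish (h : Top q x0 R d x) {L : List ℕ} (hL : ∀ ℓ ∈ L, ℓ.Prime ∧ ℓ ≠ q ∧ ℓ ∣ d)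
    (hnd : L.Nodup) (hLB : ∀ u, LB (L.map (KL d)) (TT u (FF R d x))) :
    ∃ y, St q x0 (d - 1) y := by
  obtain ⟨y, h1, h2, h3⟩ := kill_list h.hq2 h.hq h.hqd h.hR L hL hnd x hLB
  refine ⟨y, h1.trans h.st.eqv, fun a ha => ?_, fun a ha hne => ?_⟩
  · rw [h3 a (fun h0 => ha (by rw [h0]; exact h.hqd)) fun ℓ hℓ hℓq h0 => ?_, h.st.off a ha]
    have h4 : q ∣ ℓ * addOrderOf a := by rw [h0]; exact h.hqd
    rcases h.hq.dvd_mul.mp h4 with h5 | h5
    · exact hℓq ((Nat.prime_dvd_prime_iff_eq h.hq hℓ).mp h5).symm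
    · exact ha h5
  · have hpos := addOrderOf_pos a
    by_cases h4 : addOrderOf a = d
    · exfalso
      obtain ⟨u, hu⟩ := exists_unit h.hR h4
      rw [← hu, h2 u] at hne
      exact hne rfl
    · by_cases h5 : ∀ ℓ, ℓ.Prime → ℓ ≠ q → ℓ * addOrderOf a ≠ d
      · rw [h3 a h4 h5] at hne
        have := h.st.top a ha hne
        omega
      · push Not at h5
        obtain ⟨ℓ, hℓ, _, h6⟩ := h5
        have h7 : addOrderOf a < d := by
          rw [← h6]; exact lt_mul_of_one_lt_left hpos hℓ.one_lt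
        omega

/-- the step for the orders `2` modulo `4` -/
theorem Top.step_two (h : Top q x0 R d x) (hd4 : d % 4 = 2) : ∃ y, St q x0 (d - 1) y := by
  · -- the prime two
    have h2d : 2 ∣ d := by omega
    refine h.finish (L := 2 :: Lq d q 2) ?_ ?_ ?_
    · intro ℓ hℓ
      rcases List.mem_cons.mp hℓ with rfl | h1
      · exact ⟨Nat.prime_two, Ne.symm h.hq2, h2d⟩
      · obtain ⟨k1, k2, k3, _⟩ := mem_Lq.mp h1
        exact ⟨k1, k3, k2⟩
    · refine List.nodup_cons.mpr ⟨fun h1 => ?_, nodup_Lq⟩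
      exact (mem_Lq.mp h1).2.2.2 rfl
    · intro u κ hκ κ' hκ'
      have htriv : ∀ z ∈ KL d 2, z = 1 := by
        intro z hz
        obtain ⟨e, he⟩ := h2d
        have hcard : Nat.card (KL d 2) = 1 := by
          rw [KL_eq_KK (by norm_num) he.symm, card_KK_not_dvd Nat.prime_two he.symm]
          omega
        have h1 := (Nat.card_eq_one_iff_unique.mp hcard).1
        have h2 : (⟨z, hz⟩ : KL d 2) = ⟨1, Subgroup.one_mem _⟩ := Subsingleton.elim _ _
        exact congrArg Subtype.val h2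
      rw [htriv κ hκ, htriv κ' hκ']
      exact (ZZ.of_forall fun v _ => sub_self _).lb

/-- **The simple step.** -/
theorem Top.step_simple (h : Top q x0 R d x) (hn : nq q x0 < (q : ℤ) - 1) :
    ∃ y, St q x0 (d - 1) y := by
  by_cases hd4 : d % 4 = 2
  · exact h.step_two hd4
  · refine h.finish (L := Lq d q q) ?_ nodup_Lq ?_
    · intro ℓ hℓ
      obtain ⟨k1, k2, k3, _⟩ := mem_Lq.mp hℓ
      exact ⟨k1, k3, k2⟩
    · have hcov : ∀ ℓ : ℕ, ℓ.Prime → ℓ ∣ d → ℓ = q ∨ ℓ ∈ Lq d q q := by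
        intro ℓ hℓ hℓd
        by_cases h1 : ℓ = q
        · exact Or.inl h1
        · exact Or.inr (mem_Lq.mpr ⟨hℓ, hℓd, h1, h1⟩)
      have hind : Ind (KL d q :: (Lq d q q).map (KL d)) := by
        refine ind_KL d (L := q :: Lq d q q) ?_ ?_
        · intro p hp
          rcases List.mem_cons.mp hp with rfl | h1
          · exact h.hq
          · exact (mem_Lq.mp h1).1
        · exact List.nodup_cons.mpr ⟨fun h1 => (mem_Lq.mp h1).2.2.1 rfl, nodup_Lq⟩
      intro u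
      refine key_simple hind (z := -1) (by rw [neg_mul_neg, one_mul]) h.odd
        (fun b hb => h.hrel hcov b hb) (fun b h1 h2 h3 => h.hpair hcov b h1 h2 h3) ?_ u
      have := card_KL_ge' h.hq h.hqd
      linarith

end Top

section Down

variable {m : ℕ} [NeZero m] {q : ℕ} {x0 : ZMod m → ℤ}

/-- going down -/
theorem down {D0 D1 : ℕ} (hstep : ∀ d : ℕ, D0 < d → d ≤ D1 → ∀ [NeZero d], ∀ R x, Top q x0 R d x →
      ∃ y, St q x0 (d - 1) y) (hq : q.Prime) (hq2 : q ≠ 2) (hrel : Rel x0) :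
    ∀ D : ℕ, D ≤ D1 → (∃ x, St q x0 D x) → ∃ x, St q x0 D0 x := by
  intro D
  induction D with
  | zero =>
    rintro _ ⟨x, hx⟩
    exact ⟨x, hx.eqv, hx.off, fun a h1 h2 => (hx.top a h1 h2).trans (Nat.zero_le _)⟩
  | succ D ih =>
    rintro hD1 ⟨x, hx⟩
    by_cases hD : D0 < D + 1
    · apply ih (by omega)
      by_cases h1 : (D + 1) ∣ m ∧ q ∣ (D + 1)
      · obtain ⟨⟨R, hR⟩, hqD⟩ := h1
        have := hstep (D + 1) hD hD1 R x ⟨hq, hq2, by rw [hR]; ring, hqD, hrel, hx⟩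
        exact this
      · refine ⟨x, hx.eqv, hx.off, fun a h2 h3 => ?_⟩
        have h4 := hx.top a h2 h3
        have h5 : addOrderOf a ∣ m := by
          have := addOrderOf_dvd_card (x := a)
          rwa [ZMod.card] at this
        have h6 : addOrderOf a ≠ D + 1 := fun h0 => h1 ⟨h0 ▸ h5, h0 ▸ h2⟩
        omega
    · exact ⟨x, hx.eqv, hx.off, fun a h2 h3 => (hx.top a h2 h3).trans (by omega)⟩

/-- **A prime which is large compared with the number of the letters.** -/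
theorem peel_simple (hq : q.Prime) (hq2 : q ≠ 2) (hrel : Rel x0) (hn : nq q x0 < (q : ℤ) - 1) :
    ∃ y, Eqv q y x0 ∧ (∀ a, ¬ q ∣ addOrderOf a → od y a = od x0 a) ∧
      ∀ a, q ∣ addOrderOf a → od y a = 0 := by
  obtain ⟨y, hy⟩ := down (D0 := 0) (D1 := m) (fun d _ _ _ R x h => h.step_simple hn) hq hq2 hrel m
    le_rfl ⟨x0, St.init q x0⟩
  refine ⟨y, hy.eqv, hy.off, fun a ha => ?_⟩
  by_contra hne
  have h1 := hy.top a ha hne
  have h2 := addOrderOf_pos a
  omega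

end Down

end Pool.Agent.Q59.PL
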