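import Pool.Agent.Q59.PL.Odd

/-!
# The order `3 * q`
-/

namespace Pool.Agent.Q59.PL

open Finset Pool.Agent.H916R2 Pool.Agent.Q59.FS

section Sign

variable {d q : ℕ} [NeZero d]

open scoped Classical in
/-- the sign: `1` on the units congruent to one modulo three -/
noncomputable def sg (d q : ℕ) (w : (ZMod d)ˣ) : ℤ := if w ∈ KL d q then 1 else -1

lemma mem_or (h : q * 3 = d) (hq : 0 < q) (w : (ZMod d)ˣ) : w ∈ KL d q ∨ -1 * w ∈ KL d q := by
  rw [KL_eq_KK hq h, mem_KK, mem_KK, neg_one_mul]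
  have h1 : ZMod.unitsMap (Dvd.intro_left q h) (-w) = - ZMod.unitsMap (Dvd.intro_left q h) w := by
    apply Units.ext
    rw [unitsMap_coe, Units.val_neg, map_neg, ← unitsMap_coe, Units.val_neg]
  rw [h1]
  have h2 : ∀ t : (ZMod 3)ˣ, t = 1 ∨ -t = 1 := by decide
  exact h2 _

lemma not_both (h : q * 3 = d) (hq : 0 < q) {w : (ZMod d)ˣ} (hw : w ∈ KL d q) :
    -1 * w ∉ KL d q := by
  intro h0
  have h1 := (KL d q).mul_mem h0 ((KL d q).inv_mem hw)
  rw [mul_inv_cancel_right, KL_eq_KK hq h, mem_KK] at h1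
  have h2 : ZMod.unitsMap (Dvd.intro_left q h) (-1) = (-1 : (ZMod 3)ˣ) := by
    apply Units.ext
    rw [unitsMap_coe, Units.val_neg, map_neg, Units.val_one, map_one, Units.val_neg, Units.val_one]
  rw [h2] at h1
  exact absurd h1 (by decide)

lemma sg_neg (h : q * 3 = d) (hq : 0 < q) (w : (ZMod d)ˣ) : sg d q (-1 * w) = - sg d q w := by
  unfold sg
  rcases mem_or h hq w with h1 | h1
  · rw [if_pos h1, if_neg (not_both h hq h1)]
  · have h2 : w ∉ KL d q := by
      intro h0
      exact not_both h hq h0 h1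
    rw [if_pos h1, if_neg h2]
    norm_num

lemma sg_mul {κ : (ZMod d)ˣ} (hκ : κ ∈ KL d q) (w : (ZMod d)ˣ) : sg d q (w * κ) = sg d q w := by
  unfold sg
  by_cases h1 : w ∈ KL d q
  · rw [if_pos h1, if_pos ((KL d q).mul_mem h1 hκ)]
  · rw [if_neg h1, if_neg]
    intro h2
    apply h1
    have := (KL d q).mul_mem h2 ((KL d q).inv_mem hκ)
    rwa [mul_inv_cancel_right] at this

lemma sg_one : sg d q 1 = 1 := if_pos (Subgroup.one_mem _)

lemma sg_abs (w : (ZMod d)ˣ) : |sg d q w| = 1 := by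
  unfold sg; split_ifs <;> simp

lemma sg_sq (w : (ZMod d)ˣ) : sg d q w * sg d q w = 1 := by
  unfold sg; split_ifs <;> norm_num

end Sign

section Main

variable {m R d : ℕ} [NeZero m] [NeZero d] {q : ℕ} {x0 x : ZMod m → ℤ}

/-- the differences in the direction three -/
theorem Top.diff_const (h : Top q x0 R d x) (hd : q * 3 = d) {κ : (ZMod d)ˣ} (hκ : κ ∈ KL d 3)
    (w : (ZMod d)ˣ) : FF R d x w - FF R d x (w * κ) =
      sg d q w * (FF R d x 1 - FF R d x κ) := by
  have hcov : ∀ r : ℕ, r.Prime → r ∣ d → r ∈ [3, q] := by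
    intro r hr hrd
    rw [← hd] at hrd
    rcases hr.dvd_mul.mp hrd with h1 | h1
    · rw [(Nat.prime_dvd_prime_iff_eq hr h.hq).mp h1]; simp
    · rw [(Nat.prime_dvd_prime_iff_eq hr Nat.prime_three).mp h1]; simp
  have hinv : ∀ u : (ZMod d)ˣ, ∀ κ' ∈ KL d q, FF R d x (u * κ') - FF R d x (u * κ' * κ) =
      FF R d x u - FF R d x (u * κ) := by
    intro u κ' hκ'
    have h1 := Pool.Agent.Q59.SX.top_LB' h.hR (h.st.eqv.rel h.rel) h.htop hcov u 1
      (Subgroup.one_mem _) κ hκ κ' hκ' 1 (Subgroup.one_mem _)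
    have h2 : (TT u (FF R d x) (1 * κ' * 1) - TT u (FF R d x) (1 * κ' * κ)) -
        (TT u (FF R d x) (1 * 1 * 1) - TT u (FF R d x) (1 * 1 * κ)) = 0 := h1
    simp only [TT_apply, one_mul, mul_one] at h2
    rw [mul_assoc]
    linarith
  have key : ∀ v ∈ KL d q, FF R d x v - FF R d x (v * κ) = FF R d x 1 - FF R d x κ := by
    intro v hv
    have := hinv 1 v hv
    rwa [one_mul, one_mul] at this
  rcases mem_or hd h.hq.pos w with h1 | h1
  · unfold sg
    rw [if_pos h1, one_mul]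
    exact key w h1
  · have h2 := key _ h1
    rw [h.odd, mul_assoc, h.odd] at h2
    have h3 := sg_neg hd h.hq.pos w
    have h4 : sg d q (-1 * w) = 1 := if_pos h1
    rw [h4] at h3
    have h5 : sg d q w = -1 := by linarith
    rw [h5]
    linarith

/-- the bound for the difference -/
theorem Top.diff_le (h : Top q x0 R d x) (hd : q * 3 = d) (hq3 : q ≠ 3) {κ : (ZMod d)ˣ}
    (hκ : κ ∈ KL d 3) (hκ1 : κ ≠ 1) (hκκ : κ * κ = 1) (hall : ∀ κ' ∈ KL d 3, κ' = 1 ∨ κ' = κ) :
    ((q : ℤ) - 1) * |FF R d x 1 - FF R d x κ| ≤ nq q x0 := by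
  classical
  have hcov : ∀ r : ℕ, r.Prime → r ∣ d → r = q ∨ r ∈ [3] := by
    intro r hr hrd
    rw [← hd] at hrd
    rcases hr.dvd_mul.mp hrd with h1 | h1
    · exact Or.inl ((Nat.prime_dvd_prime_iff_eq hr h.hq).mp h1)
    · right
      rw [(Nat.prime_dvd_prime_iff_eq hr Nat.prime_three).mp h1]; simp
  have hinf : KL d 3 ⊓ KL d q = ⊥ :=
    KL_inf ((Nat.coprime_primes Nat.prime_three h.hq).mpr (Ne.symm hq3))
  have hκn : κ ∉ KL d q := by
    intro h0
    have h1 : κ ∈ KL d 3 ⊓ KL d q := ⟨hκ, h0⟩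
    rw [hinf] at h1
    exact hκ1 (Subgroup.mem_bot.mp h1)
  have hκs : ∀ w, sg d q (w * κ) = - sg d q w := by
    intro w
    rcases mem_or hd h.hq.pos κ with h1 | h1
    · exact absurd h1 hκn
    · have h2 := sg_mul h1 w
      have e : w * (-1 * κ) = -1 * (w * κ) := by simp only [mul_left_comm]
      rw [e, sg_neg hd h.hq.pos] at h2
      linarith
  have h1 := h.hpair hcov (fun w => ((sg d q w : ℤ) : ℚ)) (fun w => by
      rw [sg_neg hd h.hq.pos]; push_cast; ring) (fun w => by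
      rw [← Int.cast_abs, sg_abs]; norm_num) (by
      intro K' hK' u
      have hK : K' = KL d 3 := by simpa using hK'
      subst hK
      have hset : KF (KL d 3) = {1, κ} := by
        ext z
        rw [mem_KF, mem_insert, mem_singleton]
        constructor
        · exact hall z
        · rintro (rfl | rfl)
          · exact Subgroup.one_mem _
          · exact hκ
      rw [hset, sum_pair (Ne.symm hκ1), mul_one, hκs]
      push_cast; ring)
  -- the sum
  have h2 : 2 * ∑ w, FF R d x w * sg d q w =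
      (∑ w : (ZMod d)ˣ, (1 : ℤ)) * (FF R d x 1 - FF R d x κ) := by
    have h3 : ∑ w, FF R d x w * sg d q w = ∑ w, FF R d x (w * κ) * sg d q (w * κ) := by
      symm
      exact Fintype.sum_equiv (Equiv.mulRight κ) _ _ fun w => rfl
    have h4 : 2 * ∑ w, FF R d x w * sg d q w =
        ∑ w, (FF R d x w - FF R d x (w * κ)) * sg d q w := by
      rw [two_mul]
      nth_rewrite 2 [h3]
      rw [← sum_add_distrib]
      refine sum_congr rfl fun w _ => ?_
      rw [hκs]; ring
    rw [h4, sum_mul]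
    refine sum_congr rfl fun w _ => ?_
    rw [h.diff_const hd hκ]
    have := sg_sq (d := d) (q := q) w
    linear_combination (FF R d x 1 - FF R d x κ) * this
  have h3 : ∑ w : (ZMod d)ˣ, (1 : ℤ) = 2 * ((q : ℤ) - 1) := by
    rw [sum_const, card_univ, nsmul_eq_mul, mul_one, ZMod.card_units_eq_totient, ← hd]
    have hco : q.Coprime 3 := (Nat.coprime_primes h.hq Nat.prime_three).mpr hq3
    rw [Nat.totient_mul hco, Nat.totient_prime h.hq, Nat.totient_prime Nat.prime_three]
    have := h.hq.one_lt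
    push_cast [Nat.cast_sub this.le]
    ring
  rw [h3] at h2
  have h4 : ∑ w, FF R d x w * sg d q w = ((q : ℤ) - 1) * (FF R d x 1 - FF R d x κ) := by
    linarith
  have h5 : ∑ w, (FF R d x w : ℚ) * ((sg d q w : ℤ) : ℚ) =
      (((q : ℤ) - 1) * (FF R d x 1 - FF R d x κ) : ℤ) := by
    rw [← h4]; push_cast; rfl
  rw [h5, ← Int.cast_abs, abs_mul] at h1
  have h6 : |(q : ℤ) - 1| = (q : ℤ) - 1 := abs_of_nonneg (by
    have := h.hq.one_lt
    have : (1 : ℤ) < q := by exact_mod_cast this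
    linarith)
  rw [h6] at h1
  exact_mod_cast h1

/-- if the difference is zero, the order `3 * q` can be removed -/
theorem Top.step_three (h : Top q x0 R d x) (hd : q * 3 = d) (hq3 : q ≠ 3) {κ : (ZMod d)ˣ}
    (hκ : κ ∈ KL d 3) (hκκ : κ * κ = 1) (hall : ∀ κ' ∈ KL d 3, κ' = 1 ∨ κ' = κ)
    (h0 : FF R d x 1 = FF R d x κ) : ∃ y, St q x0 (d - 1) y := by
  refine h.finish (L := [3]) ?_ (List.nodup_singleton 3) ?_
  · intro ℓ hℓ
    have : ℓ = 3 := by simpa using hℓ
    subst this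
    exact ⟨Nat.prime_three, Ne.symm hq3, Dvd.intro_left q hd⟩
  · intro u
    have hz : ∀ w, FF R d x w = FF R d x (w * κ) := by
      intro w
      have := h.diff_const hd hκ w
      rw [h0, sub_self, mul_zero] at this
      linarith
    intro κ1 hκ1 κ2 hκ2
    change TT u (FF R d x) (1 * κ1) - TT u (FF R d x) (1 * κ2) = 0
    simp only [TT_apply, one_mul]
    have e1 := hz u
    rcases hall κ1 hκ1 with rfl | rfl <;> rcases hall κ2 hκ2 with rfl | rfl
    · rw [sub_self]
    · rw [mul_one, ← e1, sub_self]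
    · rw [mul_one, ← e1, sub_self]
    · rw [sub_self]

end Main

section Peel

variable {m : ℕ} [NeZero m] {q : ℕ} {x0 : ZMod m → ℤ}

/-- the orders below `3 * q` -/
theorem finish_small (h4 : ¬ 4 ∣ m) (hq : q.Prime) (hq2 : q ≠ 2) (hrel : Rel x0)
    (hx : ∃ x, St q x0 (3 * q - 1) x) :
    ∃ y, Eqv q y x0 ∧ (∀ a, ¬ q ∣ addOrderOf a → od y a = od x0 a) ∧
      ∀ a, q ∣ addOrderOf a → od y a = 0 := by
  obtain ⟨y, hy⟩ := down (D0 := 0) (D1 := 3 * q - 1) (fun d hd0 hd1 _ R x h => by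
      have hdm : d ∣ m := Dvd.intro_left R h.hR
      obtain ⟨e, he⟩ := h.hqd
      have hq0 := hq.pos
      have he3 : e < 3 := by
        by_contra hcon
        push Not at hcon
        have : q * 3 ≤ q * e := Nat.mul_le_mul_left q hcon
        omega
      interval_cases e
      · omega
      · exact h.step_self (by rw [he, mul_one])
      · refine h.step_two ?_
        have := hq.eq_two_or_odd
        omega) hq hq2 hrel (3 * q - 1) le_rfl hx
  refine ⟨y, hy.eqv, hy.off, fun a ha => ?_⟩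
  by_contra hne
  have h1 := hy.top a ha hne
  have h2 := addOrderOf_pos a
  omega

/-- **Levels divisible by three.** -/
theorem peel_three (h4 : ¬ 4 ∣ m) (hq : q.Prime) (hq5 : 5 ≤ q) (hrel : Rel x0)
    (hn : nq q x0 < 2 * ((q : ℤ) - 1)) {T : ZMod m → ℤ} (hT : Rel T)
    (hTs : ∀ a, od T a ≠ 0 → addOrderOf a ∣ 3 * q)
    (hTA : ∀ (R d : ℕ) [NeZero d], R * d = m → q * 3 = d → ∀ κ ∈ KL d 3, κ ≠ 1 →
      FF R d T 1 - FF R d T κ = 1) :
    ∃ v : ℤ, |v| ≤ 1 ∧ (v ≠ 0 → (q : ℤ) - 1 ≤ nq q x0) ∧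
      ∃ y, Eqv q y (fun a => x0 a - v * T a) ∧
        (∀ a, ¬ q ∣ addOrderOf a → od y a = od x0 a - v * od T a) ∧
        ∀ a, q ∣ addOrderOf a → od y a = 0 := by
  have hq2 : q ≠ 2 := by omega
  have hq3 : q ≠ 3 := by omega
  obtain ⟨x, hx⟩ := down (D0 := 3 * q) (D1 := m) (fun d hd0 _ _ R x h => by
      have hdm : d ∣ m := Dvd.intro_left R h.hR
      by_cases hd : d % 4 = 2
      · exact h.step_two hd
      · refine h.step_odd hn ?_ (by omega) hq3
        by_contra h0
        apply h4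
        exact (show 4 ∣ d by omega).trans hdm) hq hq2 hrel m le_rfl ⟨x0, St.init q x0⟩
  by_cases h3q : q * 3 ∣ m
  swap
  · -- the order `3 * q` does not occur
    obtain ⟨y, h1, h2, h3⟩ := finish_small h4 hq hq2 hrel ⟨x, hx.eqv, hx.off, fun a ha hne => by
      have h1 := hx.top a ha hne
      have h2 : addOrderOf a ∣ m := by
        have := addOrderOf_dvd_card (x := a)
        rwa [ZMod.card] at this
      have h3 : addOrderOf a ≠ 3 * q := by
        intro h0
        apply h3q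
        rw [mul_comm, ← h0]
        exact h2
      omega⟩
    refine ⟨0, by simp, fun h => absurd rfl h, y, ?_, ?_, h3⟩
    · intro Q _ c hc
      rw [h1 Q c hc]
      simp
    · intro a ha
      rw [h2 a ha]; ring
  obtain ⟨R, hR'⟩ := h3q
  obtain ⟨d, hd⟩ : ∃ d, q * 3 = d := ⟨_, rfl⟩
  rw [hd] at hR'
  have hR : R * d = m := by rw [hR', mul_comm]
  have hdpos : 0 < d := by rw [← hd]; have := hq.pos; positivity
  have : NeZero d := ⟨hdpos.ne'⟩
  have hdodd : d % 2 = 1 := by
    have := hq.eq_two_or_odd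
    omega
  have h3d : 3 ∣ d := Dvd.intro_left q hd
  have h9 : ¬ 9 ∣ d := by
    rintro ⟨f, hf⟩
    have h5 : q = 3 * f := by omega
    have h6 : 3 ∣ q := ⟨f, h5⟩
    exact hq3 ((Nat.prime_dvd_prime_iff_eq Nat.prime_three hq).mp h6).symm
  obtain ⟨κ, hκ, hκ1, hκκ, hall⟩ := Pool.Agent.Q59.SX.exists_kappa hdodd h3d h9
  have hd3 : d = 3 * q := by rw [← hd]; ring
  have htop : Top q x0 R d x := ⟨hq, hq2, hR, Dvd.intro _ hd, hrel, by rw [hd3]; exact hx⟩
  obtain ⟨v, hv⟩ : ∃ v, v = FF R d x 1 - FF R d x κ := ⟨_, rfl⟩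
  have hle := htop.diff_le hd hq3 hκ hκ1 hκκ hall
  rw [← hv] at hle
  have hq1 : (0 : ℤ) < (q : ℤ) - 1 := by
    have : (5 : ℤ) ≤ q := by exact_mod_cast hq5
    linarith
  have hv1 : |v| ≤ 1 := by
    by_contra hcon
    push Not at hcon
    have h6 : (2 : ℤ) ≤ |v| := hcon
    nlinarith
  have hv2 : v ≠ 0 → (q : ℤ) - 1 ≤ nq q x0 := by
    intro h0
    have h6 : 1 ≤ |v| := Int.one_le_abs h0
    nlinarith
  have hod : ∀ a, od (fun a => x a - v * T a) a = od x a - v * od T a := fun a => by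
    unfold od; ring
  have hod0 : ∀ a, od (fun a => x0 a - v * T a) a = od x0 a - v * od T a := fun a => by
    unfold od; ring
  have hrel' : Rel (fun a => x0 a - v * T a) := by
    intro t
    have e : ∑ a, (x0 a - v * T a) * saw ((t : ZMod m) * a) =
        ∑ a, x0 a * saw ((t : ZMod m) * a) - v * ∑ a, T a * saw ((t : ZMod m) * a) := by
      rw [mul_sum, ← sum_sub_distrib]
      exact sum_congr rfl fun a _ => by ring
    change ∑ a, (x0 a - v * T a) * saw ((t : ZMod m) * a) = 0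
    rw [e, hrel t, hT t]; ring
  have hst' : St q (fun a => x0 a - v * T a) d (fun a => x a - v * T a) := by
    refine ⟨?_, ?_, ?_⟩
    · intro Q _ c hc
      have h6 := hx.eqv Q c hc
      simp only [sub_smul, sum_sub_distrib]
      rw [h6]
    · intro a ha
      rw [hod, hod0, hx.off a ha]
    · intro a ha hne
      rw [hod] at hne
      by_cases h6 : od x a = 0
      · have h7 : od T a ≠ 0 := by
          intro h8
          apply hne
          rw [h6, h8]; ring
        have h8 := Nat.le_of_dvd (by have := hq.pos; positivity) (hTs a h7)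
        omega
      · have := hx.top a ha h6
        omega
  have htop' : Top q (fun a => x0 a - v * T a) R d (fun a => x a - v * T a) :=
    ⟨hq, hq2, hR, Dvd.intro _ hd, hrel', hst'⟩
  have hFF : ∀ w, FF R d (fun a => x a - v * T a) w = FF R d x w - v * FF R d T w := fun w => hod _
  obtain ⟨y0, hy0⟩ := htop'.step_three hd hq3 hκ hκκ hall (by
    rw [hFF, hFF]
    have h6 := hTA R d hR hd κ hκ hκ1
    linear_combination -hv - v * h6)
  obtain ⟨y, h1, h2, h3⟩ := finish_small h4 hq hq2 hrel' ⟨y0, by rw [← hd3]; exact hy0⟩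
  exact ⟨v, hv1, hv2, y, h1, fun a ha => by rw [h2 a ha, hod0], h3⟩

end Peel

end Pool.Agent.Q59.PL
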